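import Pool.Agent.Lib.Pf179e6.Lin

/-! Specialization of the generic linear form. -/

namespace Pool.Agent.Lib.Pf179e6

open MvPolynomial

namespace SpecAux

variable {K : Type*} [Field K] {n : ℕ}

/-- coefficientwise extension of a functional -/
noncomputable def ext (R : Type*) [CommRing R] [Algebra K R]
    (φ : MvPolynomial (Fin n) K →ₗ[K] K) : MvPolynomial (Fin n) R →ₗ[R] R :=
  (basisMonomials (Fin n) R).constr R (fun s => algebraMap K R (φ (monomial s 1)))

theorem ext_monomial (R : Type*) [CommRing R] [Algebra K R]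
    (φ : MvPolynomial (Fin n) K →ₗ[K] K) (s : Fin n →₀ ℕ) (c : R) :
    ext R φ (monomial s c) = c * algebraMap K R (φ (monomial s 1)) := by
  have h1 : (monomial s c : MvPolynomial (Fin n) R) = c • basisMonomials (Fin n) R s := by
    rw [coe_basisMonomials, smul_monomial, smul_eq_mul, mul_one]
  rw [h1, map_smul, smul_eq_mul]
  congr 1
  exact Module.Basis.constr_basis _ _ _ _

theorem ext_nat {R R' : Type*} [CommRing R] [Algebra K R] [CommRing R'] [Algebra K R']
    (g : R →ₐ[K] R') (φ : MvPolynomial (Fin n) K →ₗ[K] K) (h : MvPolynomial (Fin n) R) :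
    g (ext R φ h) = ext R' φ (map (g : R →+* R') h) := by
  induction h using MvPolynomial.induction_on' with
  | monomial s c =>
    rw [ext_monomial, map_monomial, ext_monomial, map_mul, AlgHom.commutes]
    rfl
  | add p q hp hq => rw [map_add, map_add, map_add, map_add, hp, hq]

theorem ext_self (φ : MvPolynomial (Fin n) K →ₗ[K] K) (h : MvPolynomial (Fin n) K) :
    ext K φ h = φ h := by
  induction h using MvPolynomial.induction_on' with
  | monomial s c =>
    rw [ext_monomial, Algebra.algebraMap_self_apply]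
    have h1 : (monomial s c : MvPolynomial (Fin n) K) = c • monomial s 1 := by
      rw [smul_monomial, smul_eq_mul, mul_one]
    rw [h1, map_smul, smul_eq_mul]
  | add p q hp hq => rw [map_add, map_add, hp, hq]

/-- a polynomial killed by all extended functionals is in the extended ideal -/
theorem mem_of_ext {F : Type*} [Field F] [Algebra K F] (I : Ideal (MvPolynomial (Fin n) K))
    (h : MvPolynomial (Fin n) F)
    (hh : ∀ φ : MvPolynomial (Fin n) K →ₗ[K] K, (∀ g ∈ I, φ g = 0) → ext F φ h = 0) :
    h ∈ I.map (map (σ := Fin n) (algebraMap K F)) := by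
  classical
  obtain ⟨b⟩ : Nonempty (Module.Basis (Module.Basis.ofVectorSpaceIndex K F) K F) :=
    ⟨Module.Basis.ofVectorSpace K F⟩
  obtain ⟨g, hg⟩ : ∃ g : Module.Basis.ofVectorSpaceIndex K F → MvPolynomial (Fin n) K,
    g = fun l => ∑ s ∈ h.support, monomial s (b.repr (h.coeff s) l) := ⟨_, rfl⟩
  obtain ⟨T, hT⟩ : ∃ T : Finset (Module.Basis.ofVectorSpaceIndex K F),
    T = h.support.biUnion (fun s => (b.repr (h.coeff s)).support) := ⟨_, rfl⟩
  -- `g l` lies in `I`
  have hgI : ∀ l, g l ∈ I := by
    intro l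
    by_contra hcon
    have hcon' : g l ∉ I.restrictScalars K := hcon
    obtain ⟨φ, hφ1, hφ2⟩ := Submodule.exists_le_ker_of_notMem hcon'
    apply hφ1
    have h1 := hh φ (fun g' hg' => hφ2 hg')
    -- apply the coordinate functional
    have h2 : ext F φ h = ∑ s ∈ h.support, (φ (monomial s 1)) • h.coeff s := by
      conv_lhs => rw [h.as_sum]
      rw [map_sum]
      refine Finset.sum_congr rfl fun s _ => ?_
      rw [ext_monomial, Algebra.smul_def, mul_comm]
    rw [h2] at h1
    have h3 := congrArg (fun z => b.repr z l) h1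
    simp only [map_sum, map_smul, Finsupp.coe_finsetSum, Finset.sum_apply, Finsupp.smul_apply,
      smul_eq_mul, map_zero, Finsupp.coe_zero, Pi.zero_apply] at h3
    rw [hg]
    show φ (∑ s ∈ h.support, monomial s (b.repr (h.coeff s) l)) = 0
    rw [map_sum, ← h3]
    refine Finset.sum_congr rfl fun s _ => ?_
    have h4 : (monomial s (b.repr (h.coeff s) l) : MvPolynomial (Fin n) K) =
        (b.repr (h.coeff s) l) • monomial s 1 := by
      rw [smul_monomial, smul_eq_mul, mul_one]
    rw [h4, map_smul, smul_eq_mul, mul_comm]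
  -- `h` is a combination
  have hsum : h = ∑ l ∈ T, C (b l) * map (algebraMap K F) (g l) := by
    conv_lhs => rw [h.as_sum]
    have h5 : ∀ s ∈ h.support, (monomial s (h.coeff s) : MvPolynomial (Fin n) F) =
        ∑ l ∈ T, monomial s (b l * algebraMap K F (b.repr (h.coeff s) l)) := by
      intro s hs
      rw [← map_sum]
      congr 1
      have h6 := b.linearCombination_repr (h.coeff s)
      rw [Finsupp.linearCombination_apply, Finsupp.sum] at h6
      conv_lhs => rw [← h6]
      have h7 : (b.repr (h.coeff s)).support ⊆ T := by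
        rw [hT]
        exact Finset.subset_biUnion_of_mem (fun s => (b.repr (h.coeff s)).support) hs
      rw [Finset.sum_subset h7]
      · refine Finset.sum_congr rfl fun l _ => ?_
        rw [Algebra.smul_def, mul_comm]
      · intro l _ hl
        rw [Finsupp.notMem_support_iff] at hl
        rw [hl, zero_smul]
    rw [Finset.sum_congr rfl h5, Finset.sum_comm]
    refine Finset.sum_congr rfl fun l _ => ?_
    rw [hg]
    show _ = C (b l) * map (algebraMap K F) (∑ s ∈ h.support, monomial s (b.repr (h.coeff s) l))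
    rw [map_sum, Finset.mul_sum]
    refine Finset.sum_congr rfl fun s _ => ?_
    rw [map_monomial, C_mul_monomial]
  rw [hsum]
  refine Ideal.sum_mem _ fun l _ => ?_
  exact Ideal.mul_mem_left _ _ (Ideal.mem_map_of_mem _ (hgI l))

end SpecAux

open SpecAux

/-- Proof.  For a `K`-linear `λ : K[x] → K` that vanishes on `I` put
`λ_F (h) = ∑ h_s λ (x^s)` on `F[x]`, `F = K(t)`.
(1) If `h ∈ F[x]` and `λ_F h = 0` for all such `λ`, then `h ∈ I F[x]`: choose a `K`-basis `e` of
the span of the coefficients of `h`, `h = ∑ e_l g_l` with `g_l ∈ K[x]`, `λ_F h = ∑ e_l λ (g_l)`,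
so `λ (g_l) = 0` for all `λ`, so `g_l ∈ I`.
(2) Let `S ⊆ F^n` be the set of the vectors `(λ_F (l^k X_j))_j`, `l = lin (tt K n)`.  If its span
is not everything, there is `v ≠ 0` orthogonal to it, `λ_F (l^k lin v) = 0` for all `λ`, against
(1) and the hypothesis.  So there are `λ_1, .., λ_n` with `det (λ_i,F (l^k X_j)) ≠ 0`.  The entries
are the images of `P_ij ∈ K[t]` with `P_ij (a) = λ_i ((lin a)^k X_j)`; `Q det P ≠ 0`, so
`Q (a) det P (a) ≠ 0` for some `a` (`MvPolynomial.funext`, `K` infinite).  If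
`(lin a)^k lin v ∈ I` then `∑_j P_ij (a) v_j = 0` for all `i`, so `v = 0`. -/
theorem specialize {K : Type*} [Field K] [Infinite K] {n : ℕ}
    (rs : List (MvPolynomial (Fin n) K)) (k : ℕ) (Q : MvPolynomial (Fin n) K) (hQ : Q ≠ 0)
    (h : ∀ v : Fin n → FF K n, lin (tt K n) ^ k * lin v ∈
      Ideal.ofList (rs.map (map (algebraMap K (FF K n)))) → v = 0) :
    ∃ a : Fin n → K, eval a Q ≠ 0 ∧
      ∀ v : Fin n → K, lin a ^ k * lin v ∈ Ideal.ofList rs → v = 0 := by
  classical
  obtain ⟨I, hI⟩ : ∃ I : Ideal (MvPolynomial (Fin n) K), I = Ideal.ofList rs := ⟨_, rfl⟩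
  have hIF : Ideal.ofList (rs.map (map (algebraMap K (FF K n)))) =
      I.map (map (σ := Fin n) (algebraMap K (FF K n))) := by
    rw [hI, Ideal.map_ofList]
  rw [hIF] at h
  rw [← hI]
  -- expansion of `l^k lin v`
  have hexp : ∀ {R : Type _} [Field R] (L : MvPolynomial (Fin n) R) (v : Fin n → R)
      (ψ : MvPolynomial (Fin n) R →ₗ[R] R), ψ (L ^ k * lin v) =
        ∑ j, ψ (L ^ k * X j) * v j := by
    intro R _ L v ψ
    unfold lin
    rw [Finset.mul_sum, map_sum]
    refine Finset.sum_congr rfl fun j _ => ?_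
    have h1 : L ^ k * (C (v j) * X j) = v j • (L ^ k * X j) := by
      rw [smul_eq_C_mul]
      ring
    rw [h1, map_smul, smul_eq_mul, mul_comm]
  -- the spanning set
  obtain ⟨S, hS⟩ : ∃ S : Set (Fin n → FF K n), S = {w | ∃ φ : MvPolynomial (Fin n) K →ₗ[K] K,
    (∀ g ∈ I, φ g = 0) ∧ w = fun j => ext (FF K n) φ (lin (tt K n) ^ k * X j)} := ⟨_, rfl⟩
  have hspan : Submodule.span (FF K n) S = ⊤ := by
    by_contra hcon
    obtain ⟨f, hf0, hf⟩ := Submodule.exists_le_ker_of_lt_top _ (lt_top_iff_ne_top.mpr hcon)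
    apply hf0
    obtain ⟨v, hv⟩ : ∃ v : Fin n → FF K n, v = fun j => f (Pi.single j 1) := ⟨_, rfl⟩
    have hfv : ∀ w, f w = ∑ j, w j * v j := by
      intro w
      have h1 := LinearMap.pi_apply_eq_sum_univ f w
      rw [h1]
      refine Finset.sum_congr rfl fun j _ => ?_
      rw [smul_eq_mul, hv]
      congr 2
      funext i
      rw [Pi.single_apply]
      by_cases hij : i = j
      · subst hij; simp
      · simp [hij, Ne.symm hij]
    have hv0 : v = 0 := by
      apply h
      apply mem_of_ext
      intro φ hφ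
      rw [hexp, ← hfv (fun j => ext (FF K n) φ (lin (tt K n) ^ k * X j))]
      have h2 : (fun j => ext (FF K n) φ (lin (tt K n) ^ k * X j)) ∈
          Submodule.span (FF K n) S := by
        apply Submodule.subset_span
        rw [hS]
        exact ⟨φ, hφ, rfl⟩
      exact hf h2
    ext j
    have h3 := congrFun hv0 j
    rw [hv] at h3
    simpa using h3
  obtain ⟨f0, hf1, hf2, hf3⟩ := Submodule.exists_fun_fin_finrank_span_eq (FF K n) S
  have hrank : Module.finrank (FF K n) (Submodule.span (FF K n) S) = n := by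
    rw [hspan, finrank_top, Module.finrank_fin_fun]
  obtain ⟨f, hfS, hfl⟩ : ∃ f : Fin n → (Fin n → FF K n), (∀ i, f i ∈ S) ∧
      LinearIndependent (FF K n) f := by
    refine ⟨fun i => f0 (Fin.cast hrank.symm i), fun i => hf1 _, ?_⟩
    exact hf3.comp _ (Fin.cast_injective hrank.symm)
  have hφ : ∀ i, ∃ φ : MvPolynomial (Fin n) K →ₗ[K] K, (∀ g ∈ I, φ g = 0) ∧
      f i = fun j => ext (FF K n) φ (lin (tt K n) ^ k * X j) := by
    intro i
    have h1 := hfS i
    rw [hS] at h1
    exact h1
  choose φ hφI hφf using hφ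
  -- the universal linear form and the matrix
  obtain ⟨L, hL⟩ : ∃ L : MvPolynomial (Fin n) (MvPolynomial (Fin n) K),
    L = ∑ i, C (X i) * X i := ⟨_, rfl⟩
  obtain ⟨P, hP⟩ : ∃ P : Matrix (Fin n) (Fin n) (MvPolynomial (Fin n) K),
    P = fun i j => ext (MvPolynomial (Fin n) K) (φ i) (L ^ k * X j) := ⟨_, rfl⟩
  have hLF : map (algebraMap (MvPolynomial (Fin n) K) (FF K n)) L = lin (tt K n) := by
    rw [hL, map_sum]
    unfold lin tt
    refine Finset.sum_congr rfl fun i _ => ?_
    rw [map_mul, map_C, map_X]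
  have hLa : ∀ a : Fin n → K, map (aeval a : MvPolynomial (Fin n) K →ₐ[K] K).toRingHom L =
      lin a := by
    intro a
    rw [hL, map_sum]
    unfold lin
    refine Finset.sum_congr rfl fun i _ => ?_
    rw [map_mul, map_C, map_X]
    simp
  have hPF : ∀ i j, algebraMap (MvPolynomial (Fin n) K) (FF K n) (P i j) = f i j := by
    intro i j
    rw [hφf i, hP]
    have h1 := ext_nat (IsScalarTower.toAlgHom K (MvPolynomial (Fin n) K) (FF K n)) (φ i)
      (L ^ k * X j)
    rw [IsScalarTower.coe_toAlgHom'] at h1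
    show algebraMap (MvPolynomial (Fin n) K) (FF K n)
      (ext (MvPolynomial (Fin n) K) (φ i) (L ^ k * X j)) = _
    rw [h1]
    congr 1
    rw [map_mul, map_pow, map_X]
    congr 2
  have hPa : ∀ (a : Fin n → K) i j, eval a (P i j) = φ i (lin a ^ k * X j) := by
    intro a i j
    rw [hP]
    have h1 := ext_nat (aeval a : MvPolynomial (Fin n) K →ₐ[K] K) (φ i) (L ^ k * X j)
    rw [ext_self] at h1
    have h2 : ∀ q : MvPolynomial (Fin n) K, eval a q = (aeval a : MvPolynomial (Fin n) K →ₐ[K] K) q :=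
      fun q => by rw [aeval_eq_eval]
    show eval a (ext (MvPolynomial (Fin n) K) (φ i) (L ^ k * X j)) = _
    rw [h2, h1]
    congr 1
    rw [map_mul, map_pow, map_X]
    congr 2
    exact hLa a
  have hdetF : (P.map (algebraMap (MvPolynomial (Fin n) K) (FF K n))).det ≠ 0 := by
    have h1 : P.map (algebraMap (MvPolynomial (Fin n) K) (FF K n)) = Matrix.of f := by
      ext i j
      rw [Matrix.map_apply, hPF, Matrix.of_apply]
    rw [h1]
    have h2 : LinearIndependent (FF K n) (Matrix.of f).row := hfl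
    have h3 := Matrix.linearIndependent_rows_iff_isUnit.mp h2
    exact ((Matrix.isUnit_iff_isUnit_det _).mp h3).ne_zero
  have hdet : P.det ≠ 0 := by
    intro h1
    apply hdetF
    have h2 := RingHom.map_det (algebraMap (MvPolynomial (Fin n) K) (FF K n)) P
    rw [h1, map_zero] at h2
    exact h2.symm
  have hprod : Q * P.det ≠ 0 := mul_ne_zero hQ hdet
  obtain ⟨a, ha⟩ : ∃ a : Fin n → K, eval a (Q * P.det) ≠ 0 := by
    by_contra hcon
    push Not at hcon
    exact hprod (MvPolynomial.funext fun a => by rw [hcon a]; simp)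
  rw [map_mul] at ha
  refine ⟨a, left_ne_zero_of_mul ha, ?_⟩
  intro v hv
  have hdeta : (P.map (eval a)).det ≠ 0 := by
    have h2 := RingHom.map_det (eval a) P
    rw [RingHom.mapMatrix_apply] at h2
    rw [← h2]
    exact right_ne_zero_of_mul ha
  apply Matrix.eq_zero_of_mulVec_eq_zero hdeta
  funext i
  rw [Matrix.mulVec, dotProduct]
  have h1 := hφI i _ hv
  rw [hexp] at h1
  rw [Pi.zero_apply, ← h1]
  refine Finset.sum_congr rfl fun j _ => ?_
  rw [Matrix.map_apply, hPa]

end Pool.Agent.Lib.Pf179e6
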