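import Pool.Agent.Lib.Pf179e6.HilbB

/-! Complete intersections of forms of degree `d` in the degrees `≥ n (d-1) - 1`, without the
monomial basis condition. -/

namespace Pool.Agent.Lib.Pf179e6

open MvPolynomial

variable {K : Type*} [Field K] {n : ℕ}

/-- `rs` is a regular sequence of `n` forms of degree `d` -/
structure CI (d : ℕ) (rs : List (MvPolynomial (Fin n) K)) : Prop where
  len : rs.length = n
  hom : ∀ r ∈ rs, r.IsHomogeneous d
  reg : RingTheory.Sequence.IsWeaklyRegular (MvPolynomial (Fin n) K) rs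

namespace TopCAux

theorem prod_monomial {R : Type*} [CommSemiring R] (k : Fin n → ℕ) (c : R) :
    C c * ∏ i, (X i : MvPolynomial (Fin n) R) ^ k i =
      monomial (Finsupp.equivFunOnFinite.symm k) c := by
  rw [monomial_eq, Finsupp.prod_fintype]
  · rfl
  · intro i
    exact pow_zero _

end TopCAux

theorem CI.hf_eq {d : ℕ} (hd : 1 ≤ d) {rs : List (MvPolynomial (Fin n) K)} (h : CI d rs) (t : ℕ) :
    hf (Ideal.ofList rs) t = bx n d n t := by
  have h1 := hf_list hd rs h.len.le h.hom h.reg t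
  rwa [h.len] at h1

theorem ideg_le (I : Ideal (MvPolynomial (Fin n) K)) (t : ℕ) :
    Ideg I t ≤ homogeneousSubmodule (Fin n) K t := inf_le_right

theorem mem_ideg {I : Ideal (MvPolynomial (Fin n) K)} {t : ℕ} {q : MvPolynomial (Fin n) K} :
    q ∈ Ideg I t ↔ q ∈ I ∧ q.IsHomogeneous t := by
  unfold Ideg
  rw [Submodule.mem_inf, Submodule.restrictScalars_mem, mem_homogeneousSubmodule]

theorem finrank_ideg {I : Ideal (MvPolynomial (Fin n) K)} {t c : ℕ} (h : hf I t = c) :
    Module.finrank K (homogeneousSubmodule (Fin n) K t) = Module.finrank K (Ideg I t) + c := by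
  have hfin := finite_hom (K := K) (n := n) t
  have h1 := Submodule.finrank_mono (ideg_le I t)
  unfold hf at h
  omega

/-- `hf = 0` (`hf_list`, `bx_top_zero`) -/
theorem CI.top_zero {d : ℕ} (hd : 1 ≤ d) {rs : List (MvPolynomial (Fin n) K)} (h : CI d rs)
    {t : ℕ} (ht : n * (d - 1) < t) {q : MvPolynomial (Fin n) K} (hq : q.IsHomogeneous t) :
    q ∈ Ideal.ofList rs := by
  have hfin := finite_hom (K := K) (n := n) t
  have h1 := finrank_ideg ((h.hf_eq hd t).trans (bx_top_zero hd ht))
  have h2 : Ideg (Ideal.ofList rs) t = homogeneousSubmodule (Fin n) K t :=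
    Submodule.eq_of_le_of_finrank_le (ideg_le _ t) (by rw [h1, add_zero])
  have h3 : q ∈ Ideg (Ideal.ofList rs) t := by
    rw [h2, mem_homogeneousSubmodule]
    exact hq
  exact (mem_ideg.1 h3).1

/-- `hf = 1` -/
theorem CI.top_one {d : ℕ} (hd : 1 ≤ d) {rs : List (MvPolynomial (Fin n) K)} (h : CI d rs) :
    ∃ m : MvPolynomial (Fin n) K, m.IsHomogeneous (n * (d - 1)) ∧ m ∉ Ideal.ofList rs ∧
      ∀ q : MvPolynomial (Fin n) K, q.IsHomogeneous (n * (d - 1)) →
        ∃ c : K, q - C c * m ∈ Ideal.ofList rs := by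
  set t := n * (d - 1) with ht
  set I := Ideal.ofList rs with hI
  have hfin := finite_hom (K := K) (n := n) t
  have h1 : Module.finrank K (homogeneousSubmodule (Fin n) K t) =
      Module.finrank K (Ideg I t) + 1 := finrank_ideg ((h.hf_eq hd t).trans (bx_top_one hd))
  have h2 : Ideg I t < homogeneousSubmodule (Fin n) K t := by
    refine lt_of_le_of_ne (ideg_le _ t) (fun h3 => ?_)
    rw [h3] at h1
    omega
  obtain ⟨m, hm1, hm2⟩ := SetLike.exists_of_lt h2
  rw [mem_homogeneousSubmodule] at hm1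
  have hm3 : m ∉ I := fun h3 => hm2 (mem_ideg.2 ⟨h3, hm1⟩)
  refine ⟨m, hm1, hm3, fun q hq => ?_⟩
  have h4 : Ideg I t ⊔ Submodule.span K {m} ≤ homogeneousSubmodule (Fin n) K t := by
    refine sup_le (ideg_le _ t) ?_
    rw [Submodule.span_singleton_le_iff_mem, mem_homogeneousSubmodule]
    exact hm1
  have hfin2 : FiniteDimensional K ↥(Ideg I t ⊔ Submodule.span K {m}) :=
    Submodule.finiteDimensional_of_le h4
  have h5 : Ideg I t < Ideg I t ⊔ Submodule.span K {m} := by
    refine lt_of_le_of_ne le_sup_left (fun h6 => hm2 ?_)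
    rw [h6]
    exact Submodule.mem_sup_right (Submodule.mem_span_singleton_self m)
  have h6 := Submodule.finrank_lt_finrank_of_lt h5
  have h7 : Ideg I t ⊔ Submodule.span K {m} = homogeneousSubmodule (Fin n) K t :=
    Submodule.eq_of_le_of_finrank_le h4 (by rw [h1]; omega)
  have h8 : q ∈ Ideg I t ⊔ Submodule.span K {m} := by
    rw [h7, mem_homogeneousSubmodule]
    exact hq
  obtain ⟨y, hy, z, hz, hyz⟩ := Submodule.mem_sup.1 h8
  obtain ⟨c, rfl⟩ := Submodule.mem_span_singleton.1 hz
  refine ⟨c, ?_⟩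
  have h9 : q - C c * m = y := by
    rw [← hyz, smul_eq_C_mul]
    ring
  rw [h9]
  exact (mem_ideg.1 hy).1

/-- Choose a `K`-linear `λ` that vanishes on `I` and not on the form `m` of degree `s = n (d-1)`;
`Q = ∑_α multinomial(α) λ (x^α) t^α` over `|α| = s`, `Q (a) = λ ((lin a)^s)`; compare
`TopB.exists_Q`. -/
theorem CI.exists_Q [CharZero K] {d : ℕ} (hd : 1 ≤ d) {rs : List (MvPolynomial (Fin n) K)}
    (h : CI d rs) : ∃ Q : MvPolynomial (Fin n) K, Q ≠ 0 ∧
      ∀ a, eval a Q ≠ 0 → lin a ^ (n * (d - 1)) ∉ Ideal.ofList rs := by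
  classical
  obtain ⟨m, hmh, hmI, -⟩ := h.top_one hd
  obtain ⟨lam, hlam, hI⟩ := Submodule.exists_le_ker_of_notMem
    (p := (Ideal.ofList rs).restrictScalars K) (v := m) hmI
  set N := n * (d - 1) with hN
  set A := Finset.piAntidiag (Finset.univ : Finset (Fin n)) N with hA
  refine ⟨∑ k ∈ A, C ((Nat.multinomial Finset.univ k : K) * lam (∏ i, X i ^ k i)) *
    ∏ i, X i ^ k i, ?_, ?_⟩
  · intro h0
    have hall : ∀ k₀ ∈ A, lam (∏ i, X i ^ k₀ i) = 0 := by
      intro k₀ hmem
      have h1 := congrArg (coeff (Finsupp.equivFunOnFinite.symm k₀)) h0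
      rw [coeff_sum, coeff_zero, Finset.sum_eq_single k₀] at h1
      · rw [TopCAux.prod_monomial, coeff_monomial, if_pos rfl] at h1
        rcases mul_eq_zero.mp h1 with h2 | h2
        · have h3 : Nat.multinomial Finset.univ k₀ = 0 := by exact_mod_cast h2
          exact absurd h3 (Nat.multinomial_pos _ _).ne'
        · exact h2
      · intro k _ hk
        rw [TopCAux.prod_monomial, coeff_monomial, if_neg]
        intro h
        exact hk (Finsupp.equivFunOnFinite.symm.injective h)
      · intro h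
        exact absurd hmem h
    apply hlam
    rw [m.as_sum, map_sum]
    refine Finset.sum_eq_zero (fun s hs => ?_)
    have h4 : monomial s (coeff s m) = coeff s m • ∏ i, (X i : MvPolynomial (Fin n) K) ^ (s i) := by
      have h6 : Finsupp.equivFunOnFinite.symm (fun i => s i) = s := by
        ext i
        rfl
      rw [smul_eq_C_mul, TopCAux.prod_monomial, h6]
    rw [h4, map_smul, hall (fun i => s i), smul_zero]
    rw [hA, Finset.mem_piAntidiag]
    refine ⟨?_, fun i _ => Finset.mem_univ i⟩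
    have h5 := hmh (mem_support_iff.1 hs)
    rw [← h5, Finsupp.weight_apply, Finsupp.sum_fintype]
    · simp
    · intro i
      simp
  · intro a ha hmemI
    apply ha
    have h1 : lam (lin a ^ N) = 0 := hI hmemI
    rw [← h1]
    unfold lin
    rw [Finset.sum_pow_eq_sum_piAntidiag, map_sum, map_sum]
    refine Finset.sum_congr rfl fun k _ => ?_
    have h3 : ∀ c : K, eval a (C c * ∏ i, X i ^ k i) = c * ∏ i, a i ^ k i := by
      intro c
      simp
    rw [h3]
    have h2 : (Nat.multinomial Finset.univ k : MvPolynomial (Fin n) K) *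
        ∏ i, (C (a i) * X i) ^ k i =
        ((Nat.multinomial Finset.univ k : K) * ∏ i, a i ^ k i) • ∏ i, X i ^ k i := by
      rw [smul_eq_C_mul, map_mul, map_natCast, map_prod, mul_assoc, ← Finset.prod_mul_distrib]
      congr 1
      exact Finset.prod_congr rfl fun i _ => by rw [mul_pow, map_pow]
    rw [h2, map_smul, smul_eq_mul]
    ring

/-- Dimension count with `hf = n` in degree `n (d-1) - 1`. -/
theorem CI.sub_top_surj {d : ℕ} (hd : 2 ≤ d) {rs : List (MvPolynomial (Fin n) K)} (h : CI d rs)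
    (hs : 2 ≤ n * (d - 1)) (a : Fin n → K)
    (ha : ∀ v : Fin n → K, lin a ^ (n * (d - 1) - 2) * lin v ∈ Ideal.ofList rs → v = 0)
    {q : MvPolynomial (Fin n) K} (hq : q.IsHomogeneous (n * (d - 1) - 1)) :
    ∃ v : Fin n → K, q - lin a ^ (n * (d - 1) - 2) * lin v ∈ Ideal.ofList rs := by
  have hn : 1 ≤ n := by
    rcases Nat.eq_zero_or_pos n with h0 | h0
    · rw [h0, zero_mul] at hs
      omega
    · exact h0
  set t := n * (d - 1) - 1 with ht
  set I := Ideal.ofList rs with hI
  have hfin := finite_hom (K := K) (n := n) t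
  have h1 : Module.finrank K (homogeneousSubmodule (Fin n) K t) =
      Module.finrank K (Ideg I t) + n :=
    finrank_ideg ((h.hf_eq (by omega) t).trans (bx_sub_top hd hn))
  set φ : (Fin n → K) →ₗ[K] MvPolynomial (Fin n) K :=
    (LinearMap.mulLeft K (lin a ^ (n * (d - 1) - 2))).comp (linL K n) with hφ
  have hφa : ∀ v, φ v = lin a ^ (n * (d - 1) - 2) * lin v := fun v => rfl
  have hinj : Function.Injective φ := by
    rw [injective_iff_map_eq_zero]
    intro v hv
    refine ha v ?_
    rw [← hφa, hv]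
    exact Ideal.zero_mem _
  have hle : LinearMap.range φ ≤ homogeneousSubmodule (Fin n) K t := by
    rintro _ ⟨v, rfl⟩
    rw [hφa, mem_homogeneousSubmodule]
    have h2 := ((lin_hom a).pow (n * (d - 1) - 2)).mul (lin_hom v)
    have e : 1 * (n * (d - 1) - 2) + 1 = t := by omega
    rwa [e] at h2
  have hrange : Module.finrank K (LinearMap.range φ) = n := by
    rw [LinearMap.finrank_range_of_inj hinj, Module.finrank_fin_fun]
  have hdisj : Ideg I t ⊓ LinearMap.range φ = ⊥ := by
    rw [Submodule.eq_bot_iff]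
    rintro x ⟨hx1, ⟨v, rfl⟩⟩
    have h3 := (mem_ideg.1 hx1).1
    rw [hφa] at h3
    rw [ha v h3, map_zero]
  have h4 : Ideg I t ⊔ LinearMap.range φ ≤ homogeneousSubmodule (Fin n) K t :=
    sup_le (ideg_le _ t) hle
  have hf1 : FiniteDimensional K ↥(Ideg I t) := Submodule.finiteDimensional_of_le (ideg_le _ t)
  have hf2 : FiniteDimensional K ↥(LinearMap.range φ) := Submodule.finiteDimensional_of_le hle
  have h5 := Submodule.finrank_sup_add_finrank_inf_eq (Ideg I t) (LinearMap.range φ)
  rw [hdisj, finrank_bot, add_zero, hrange] at h5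
  have h6 : Ideg I t ⊔ LinearMap.range φ = homogeneousSubmodule (Fin n) K t :=
    Submodule.eq_of_le_of_finrank_le h4 (by rw [h1, h5])
  have h7 : q ∈ Ideg I t ⊔ LinearMap.range φ := by
    rw [h6, mem_homogeneousSubmodule]
    exact hq
  obtain ⟨y, hy, z, ⟨v, rfl⟩, hyz⟩ := Submodule.mem_sup.1 h7
  refine ⟨v, ?_⟩
  rw [← hφa, ← hyz, add_sub_cancel_right]
  exact (mem_ideg.1 hy).1

end Pool.Agent.Lib.Pf179e6
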