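import Mathlib

/-! The abstract form of the argument (see the progress row of MP_f179e6_ag). -/

namespace Pool.Agent.Lib.Pf179e6

/-- the situation of `no_kernel` -/
structure Dat (F V A : Type*) [Field F] [CharZero F] [AddCommGroup V] [Module F V]
    [FiniteDimensional F V] [CommRing A] [Algebra F A] where
  ι : V →ₗ[F] A
  G : ℕ → Submodule F A
  hG0 : (1 : A) ∈ G 0
  hG1 : ∀ v, ι v ∈ G 1
  hGm : ∀ i j a b, a ∈ G i → b ∈ G j → a * b ∈ G (i + j)
  d : ℕ
  hd : 2 ≤ d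
  hP : ∀ c, ∀ z ∈ G c, z ≠ 0 → ∀ U : Submodule F V, (∀ u ∈ U, ι u * z = 0) →
      Module.finrank F U * (d - 1) ≤ c
  l : V
  y : V
  N : V →ₗ[F] V
  hNy : N y = 0
  k : ℕ
  hk : k + 3 ≤ Module.finrank F V * (d - 1)
  h0 : ι y * ι l ^ (k + 1) = 0
  h1 : ι y * ι l ^ k ≠ 0
  hrel : ∀ p q, ι y ^ (p + 1) * ι l ^ (q + 1) = 0 → ∀ m,
      ((p + 1 : ℕ) : A) * (ι y ^ p * ι (N m) * ι l ^ (q + 1)) +
        ((q + 1 : ℕ) : A) * (ι y ^ (p + 1) * ι l ^ q * ι m) = 0
  hrel0 : ∀ p, ι y ^ (p + 1) = 0 → ∀ m, ((p + 1 : ℕ) : A) * (ι y ^ p * ι (N m)) = 0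

namespace Dat

variable {F V A : Type*} [Field F] [CharZero F] [AddCommGroup V] [Module F V]
    [FiniteDimensional F V] [CommRing A] [Algebra F A] (E : Dat F V A)

theorem natCast_mul_eq (n : ℕ) (a : A) : (n : A) * a = (n : F) • a := by
  rw [Algebra.smul_def, map_natCast]

theorem hex (p : ℕ) : ∃ q, E.ι E.y ^ (p + 1) * E.ι E.l ^ q = 0 :=
  ⟨E.k + 1, by rw [pow_succ, mul_assoc, E.h0, mul_zero]⟩

open Classical in
/-- least exponent -/
noncomputable def kk (p : ℕ) : ℕ := Nat.find (E.hex p)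

theorem kk_spec (p : ℕ) : E.ι E.y ^ (p + 1) * E.ι E.l ^ E.kk p = 0 := by
  classical
  exact Nat.find_spec (E.hex p)

theorem kk_min {p q : ℕ} (h : q < E.kk p) : E.ι E.y ^ (p + 1) * E.ι E.l ^ q ≠ 0 := by
  classical
  exact Nat.find_min (E.hex p) h

theorem kk_le {p q : ℕ} (h : E.ι E.y ^ (p + 1) * E.ι E.l ^ q = 0) : E.kk p ≤ q := by
  classical
  exact Nat.find_min' (E.hex p) h

theorem kk_zero : E.kk 0 = E.k + 1 := by
  apply le_antisymm
  · apply E.kk_le
    rw [zero_add, pow_one, E.h0]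
  · by_contra h
    push Not at h
    have h2 := E.kk_spec 0
    rw [zero_add, pow_one] at h2
    apply E.h1
    have h3 : E.k = E.kk 0 + (E.k - E.kk 0) := by omega
    rw [h3, pow_add, ← mul_assoc, h2, zero_mul]

/-- last non-zero element of a row -/
noncomputable def z (p : ℕ) : A := E.ι E.y ^ (p + 1) * E.ι E.l ^ (E.kk p - 1)

/-- the element above -/
noncomputable def w (p : ℕ) : A := E.ι E.y ^ p * E.ι E.l ^ E.kk p

theorem z_ne {p : ℕ} (hp : 1 ≤ E.kk p) : E.z p ≠ 0 := E.kk_min (by omega)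

theorem y_w (p : ℕ) : E.ι E.y * E.w p = 0 := by
  rw [w, ← mul_assoc, ← pow_succ', E.kk_spec]

theorem pow_mem (v : V) (q : ℕ) : E.ι v ^ q ∈ E.G q := by
  induction q with
  | zero => rw [pow_zero]; exact E.hG0
  | succ q ih => rw [pow_succ]; exact E.hGm _ _ _ _ ih (E.hG1 v)

theorem z_mem {p : ℕ} (hp : 1 ≤ E.kk p) : E.z p ∈ E.G (p + E.kk p) := by
  have h := E.hGm _ _ _ _ (E.pow_mem E.y (p + 1)) (E.pow_mem E.l (E.kk p - 1))
  have e : p + 1 + (E.kk p - 1) = p + E.kk p := by omega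
  rwa [e] at h

theorem w_mem (p : ℕ) : E.w p ∈ E.G (p + E.kk p) :=
  E.hGm _ _ _ _ (E.pow_mem E.y p) (E.pow_mem E.l (E.kk p))

/-- the relation -/
theorem rel {p : ℕ} (hp : 1 ≤ E.kk p) :
    ∃ α : F, α ≠ 0 ∧ ∀ m, E.ι m * E.z p = α • (E.ι (E.N m) * E.w p) := by
  obtain ⟨q, hq⟩ : ∃ q, E.kk p = q + 1 := ⟨E.kk p - 1, by omega⟩
  have h := E.hrel p q (by rw [← hq]; exact E.kk_spec p)
  have hq' : ((q + 1 : ℕ) : F) ≠ 0 := Nat.cast_ne_zero.2 (by omega)
  have hp' : ((p + 1 : ℕ) : F) ≠ 0 := Nat.cast_ne_zero.2 (by omega)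
  refine ⟨-(((p + 1 : ℕ) : F) / ((q + 1 : ℕ) : F)), neg_ne_zero.2 (div_ne_zero hp' hq'), ?_⟩
  intro m
  have h2 := h m
  rw [natCast_mul_eq (F := F), natCast_mul_eq (F := F)] at h2
  have h3 : E.z p = E.ι E.y ^ (p + 1) * E.ι E.l ^ q := by
    rw [z, hq, Nat.add_sub_cancel]
  have h4 : E.w p = E.ι E.y ^ p * E.ι E.l ^ (q + 1) := by rw [w, hq]
  have h5 : E.ι m * E.z p = E.ι E.y ^ (p + 1) * E.ι E.l ^ q * E.ι m := by rw [h3, mul_comm]
  have h6 : E.ι (E.N m) * E.w p = E.ι E.y ^ p * E.ι (E.N m) * E.ι E.l ^ (q + 1) := by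
    rw [h4]; ring
  rw [h5, h6]
  have h7 := eq_neg_of_add_eq_zero_right h2
  have h8 : E.ι E.y ^ (p + 1) * E.ι E.l ^ q * E.ι m
      = ((q + 1 : ℕ) : F)⁻¹ • (((q + 1 : ℕ) : F) • (E.ι E.y ^ (p + 1) * E.ι E.l ^ q * E.ι m)) := by
    rw [smul_smul, inv_mul_cancel₀ hq', one_smul]
  rw [h8, h7, smul_neg, smul_smul, neg_smul]
  congr 2
  rw [div_eq_mul_inv, mul_comm]

/-- nothing of small degree is killed by all of `V` -/
theorem soc {c : ℕ} {a : A} (ha : a ∈ E.G c) (hc : c ≤ E.k + 2) (h : ∀ m, E.ι m * a = 0) :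
    a = 0 := by
  by_contra hne
  have h1 := E.hP c a ha hne ⊤ (fun u _ => h u)
  rw [finrank_top] at h1
  have := E.hk
  omega

theorem kk_succ {p : ℕ} (hp : 1 ≤ E.kk p) (hc : p + E.kk p ≤ E.k + 1) :
    E.kk (p + 1) + 1 ≤ E.kk p := by
  have h1 : E.ι E.y * E.z p = 0 := by
    apply E.soc (c := 1 + (p + E.kk p)) (E.hGm _ _ _ _ (E.hG1 _) (E.z_mem hp)) (by omega)
    intro m
    obtain ⟨α, _, hα⟩ := E.rel hp
    rw [mul_left_comm, hα, mul_smul_comm, mul_left_comm, E.y_w, mul_zero, smul_zero]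
  have h2 : E.kk (p + 1) ≤ E.kk p - 1 := by
    apply E.kk_le
    rw [z, ← mul_assoc, ← pow_succ'] at h1
    exact h1
  omega

theorem exists_M : ∃ M, E.kk M = 0 := by
  by_contra h
  push Not at h
  have h1 : ∀ p, p + E.kk p ≤ E.k + 1 := by
    intro p
    induction p with
    | zero => rw [E.kk_zero]; omega
    | succ p ih =>
      have := E.kk_succ (Nat.one_le_iff_ne_zero.2 (h p)) ih
      omega
  have h2 := h1 (E.k + 2)
  omega

open Classical in
/-- number of rows -/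
noncomputable def M : ℕ := Nat.find E.exists_M

theorem kk_M : E.kk E.M = 0 := by
  classical
  exact Nat.find_spec E.exists_M

theorem one_le_kk {p : ℕ} (h : p < E.M) : 1 ≤ E.kk p := by
  classical
  exact Nat.one_le_iff_ne_zero.2 (Nat.find_min E.exists_M h)

theorem M_pos : 1 ≤ E.M := by
  by_contra h
  have h1 : E.M = 0 := by omega
  have h2 := E.kk_M
  rw [h1, E.kk_zero] at h2
  omega

/-- degree of the row -/
noncomputable def c (p : ℕ) : ℕ := p + E.kk p

theorem c_le {p : ℕ} (h : p ≤ E.M) : E.c p ≤ E.k + 1 := by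
  induction p with
  | zero => rw [c, E.kk_zero]; omega
  | succ p ih =>
    have h1 := ih (by omega)
    have h2 := E.kk_succ (E.one_le_kk (p := p) (by omega)) h1
    rw [c] at *
    omega

theorem kk_succ' {p : ℕ} (h : p < E.M) : E.kk (p + 1) + 1 ≤ E.kk p :=
  E.kk_succ (E.one_le_kk h) (E.c_le (by omega))

theorem c_succ {p : ℕ} (h : p < E.M) : E.c (p + 1) ≤ E.c p := by
  have := E.kk_succ' h
  rw [c, c]; omega

theorem c_anti {p q : ℕ} (hpq : p ≤ q) (hq : q ≤ E.M) : E.c q ≤ E.c p := by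
  induction q, hpq using Nat.le_induction with
  | base => exact le_refl _
  | succ q _ ih => exact (E.c_succ (by omega)).trans (ih (by omega))

theorem z_eq_w_mul {p : ℕ} (h : p < E.M) :
    E.z p = E.w (p + 1) * E.ι E.l ^ (E.kk p - 1 - E.kk (p + 1)) := by
  have := E.kk_succ' h
  rw [z, w, mul_assoc, ← pow_add]
  congr 2
  omega

theorem y_pow_M : E.ι E.y ^ (E.M + 1) = 0 := by
  have h := E.kk_spec E.M
  rwa [E.kk_M, pow_zero, mul_one] at h

theorem N_y_pow (m : V) : E.ι E.y ^ E.M * E.ι (E.N m) = 0 := by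
  have h := E.hrel0 E.M E.y_pow_M m
  rw [natCast_mul_eq (F := F)] at h
  rcases smul_eq_zero.1 h with h | h
  · exact absurd h (Nat.cast_ne_zero.2 (by omega))
  · exact h

theorem nil_z : ∀ j p, p + j + 1 = E.M → ∀ m, E.ι ((E.N ^ (j + 1)) m) * E.z p = 0 := by
  intro j
  induction j with
  | zero =>
    intro p hp m
    rw [zero_add, pow_one, z]
    have h := E.N_y_pow m
    have e : p + 1 = E.M := by omega
    rw [e, ← mul_assoc, mul_comm (E.ι (E.N m)), h, zero_mul]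
  | succ j ih =>
    intro p hp m
    have h1 := ih (p + 1) (by omega) m
    obtain ⟨α, hα0, hα⟩ := E.rel (E.one_le_kk (p := p + 1) (by omega))
    rw [hα] at h1
    rcases smul_eq_zero.1 h1 with h | h
    · exact absurd h hα0
    · rw [E.z_eq_w_mul (by omega), ← mul_assoc, pow_succ', Module.End.mul_apply, h, zero_mul]

theorem nil_w {p : ℕ} (h : p < E.M) : ∃ j, ∀ m, E.ι ((E.N ^ j) m) * E.w p = 0 := by
  refine ⟨(E.M - p - 1) + 1 + 1, fun m => ?_⟩
  have h1 := E.nil_z (E.M - p - 1) p (by omega) m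
  obtain ⟨α, hα0, hα⟩ := E.rel (E.one_le_kk h)
  rw [hα] at h1
  rcases smul_eq_zero.1 h1 with h | h
  · exact absurd h hα0
  · rw [pow_succ', Module.End.mul_apply]; exact h

/-- `N` can be moved from one factor to another -/
def Mov (a : A) : Prop := ∀ m m', E.ι (E.N m) * (E.ι m' * a) = E.ι m * (E.ι (E.N m') * a)

theorem mov_w {p : ℕ} (h : p < E.M) : E.Mov (E.w p) := by
  intro m m'
  obtain ⟨α, hα0, hα⟩ := E.rel (E.one_le_kk h)
  have h1 : α • (E.ι (E.N m) * (E.ι m' * E.w p)) = α • (E.ι m * (E.ι (E.N m') * E.w p)) := by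
    rw [mul_left_comm, ← mul_smul_comm, ← hα, ← mul_smul_comm, ← hα, mul_left_comm]
  exact smul_right_injective A hα0 h1

theorem Mov.pow {a : A} (h : E.Mov a) (j : ℕ) (m m' : V) :
    E.ι ((E.N ^ j) m) * (E.ι m' * a) = E.ι m * (E.ι ((E.N ^ j) m') * a) := by
  induction j generalizing m m' with
  | zero => simp
  | succ j ih =>
    rw [pow_succ, Module.End.mul_apply, ih, h, ← Module.End.mul_apply, ← pow_succ', pow_succ]

/-- place in the run, starting from zero -/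
noncomputable def rr : ℕ → ℕ
  | 0 => 0
  | p + 1 => if E.c (p + 1) = E.c p then rr p + 1 else 0

theorem run {p : ℕ} (hp : p < E.M) : ∃ a ∈ E.G (E.c p), E.ι E.y * a = 0 ∧ E.Mov a ∧
    (∃ j, ∀ m, E.ι ((E.N ^ j) m) * a = 0) ∧
    ∃ α : F, ∀ m, E.ι m * E.z p = α • (E.ι ((E.N ^ (E.rr p + 1)) m) * a) := by
  induction p with
  | zero =>
    obtain ⟨α, _, hα⟩ := E.rel (E.one_le_kk hp)
    refine ⟨E.w 0, E.w_mem 0, E.y_w 0, E.mov_w hp, E.nil_w hp, α, fun m => ?_⟩
    rw [hα, rr, zero_add, pow_one]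
  | succ p ih =>
    obtain ⟨α, _, hα⟩ := E.rel (E.one_le_kk hp)
    by_cases hc : E.c (p + 1) = E.c p
    · obtain ⟨a, ha, hya, hm, hn, β, hβ⟩ := ih (by omega)
      refine ⟨a, by rw [hc]; exact ha, hya, hm, hn, α * β, fun m => ?_⟩
      have hw : E.w (p + 1) = E.z p := by
        rw [w, z]
        congr 2
        rw [c, c] at hc
        omega
      rw [hα, hw, hβ, smul_smul, rr, if_pos hc, pow_succ (E.N) (E.rr p + 1), Module.End.mul_apply]
    · refine ⟨E.w (p + 1), E.w_mem _, E.y_w _, E.mov_w hp, E.nil_w hp, α, fun m => ?_⟩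
      rw [hα, rr, if_neg hc, zero_add, pow_one]

/-- `N^r V + F y` -/
def S (r : ℕ) : Submodule F V := LinearMap.range (E.N ^ r) ⊔ Submodule.span F {E.y}

/-- the elements whose image under `N^r` is in `S (r+1)` -/
def Us (r : ℕ) : Submodule F V := (E.S (r + 1)).comap (E.N ^ r)

theorem mem_S {r : ℕ} {v : V} : v ∈ E.S r ↔ ∃ m, ∃ a : F, v = (E.N ^ r) m + a • E.y := by
  rw [S, Submodule.mem_sup]
  constructor
  · rintro ⟨u, ⟨m, rfl⟩, w, hw, rfl⟩
    obtain ⟨a, rfl⟩ := Submodule.mem_span_singleton.1 hw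
    exact ⟨m, a, rfl⟩
  · rintro ⟨m, a, rfl⟩
    exact ⟨_, ⟨m, rfl⟩, _, Submodule.smul_mem _ a (Submodule.mem_span_singleton_self _), rfl⟩

theorem S_succ_le (r : ℕ) : E.S (r + 1) ≤ E.S r := by
  intro v hv
  obtain ⟨m, a, rfl⟩ := E.mem_S.1 hv
  exact E.mem_S.2 ⟨E.N m, a, by rw [pow_succ, Module.End.mul_apply]⟩

theorem Us_mono : Monotone E.Us := by
  apply monotone_nat_of_le_succ
  intro r u hu
  rw [Us, Submodule.mem_comap, E.mem_S] at hu ⊢
  obtain ⟨m, a, h⟩ := hu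
  refine ⟨m, 0, ?_⟩
  rw [pow_succ', Module.End.mul_apply, h, map_add, map_smul, E.hNy, smul_zero, zero_smul,
    pow_succ' E.N (r + 1), Module.End.mul_apply]

theorem finrank_Us (r : ℕ) : Module.finrank F V + Module.finrank F (E.S (r + 1)) ≤
    Module.finrank F (E.Us r) + Module.finrank F (E.S r) := by
  let φ : V →ₗ[F] V ⧸ E.S (r + 1) := (E.S (r + 1)).mkQ ∘ₗ (E.N ^ r)
  have h1 : LinearMap.ker φ = E.Us r := by
    ext u
    rw [LinearMap.mem_ker, LinearMap.comp_apply, Submodule.mkQ_apply,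
      Submodule.Quotient.mk_eq_zero, Us, Submodule.mem_comap]
  have h2 := LinearMap.finrank_range_add_finrank_ker φ
  rw [h1] at h2
  let ψ : E.S r →ₗ[F] V ⧸ E.S (r + 1) := (E.S (r + 1)).mkQ.domRestrict (E.S r)
  have h3 := LinearMap.finrank_range_add_finrank_ker ψ
  have h4 : LinearMap.range φ ≤ LinearMap.range ψ := by
    rintro _ ⟨u, rfl⟩
    exact ⟨⟨(E.N ^ r) u, E.mem_S.2 ⟨u, 0, by simp⟩⟩, rfl⟩
  have h5 := Submodule.finrank_mono h4
  have h6 : LinearMap.ker ψ = (E.S (r + 1)).comap (E.S r).subtype := by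
    ext u
    rw [LinearMap.mem_ker, Submodule.mem_comap]
    change (E.S (r + 1)).mkQ (u : V) = 0 ↔ _
    rw [Submodule.mkQ_apply, Submodule.Quotient.mk_eq_zero]
    rfl
  have h7 : Module.finrank F (LinearMap.ker ψ) = Module.finrank F (E.S (r + 1)) := by
    rw [h6]
    exact LinearEquiv.finrank_eq (Submodule.comapSubtypeEquivOfLe (E.S_succ_le r))
  omega

theorem key {p : ℕ} (hp : p < E.M) :
    Module.finrank F (E.Us (E.rr p + 1)) * (E.d - 1) ≤ E.c p + 1 := by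
  classical
  obtain ⟨a, ha, hya, hm, hn, α, hα⟩ := E.run hp
  have hc := E.c_le hp.le
  have h1 : ∃ m, E.ι m * E.z p ≠ 0 := by
    by_contra h
    push Not at h
    exact E.z_ne (E.one_le_kk hp) (E.soc (E.z_mem (E.one_le_kk hp)) (by rw [c] at hc; omega) h)
  obtain ⟨m, hm1⟩ := h1
  have h2 : E.ι ((E.N ^ (E.rr p + 1)) m) * a ≠ 0 := by
    intro h
    apply hm1
    rw [hα, h, smul_zero]
  set g := Nat.find hn with hg
  have hg1 := Nat.find_spec hn
  rw [← hg] at hg1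
  have hg2 : E.rr p + 1 < g := by
    by_contra h
    push Not at h
    apply h2
    have e : E.rr p + 1 = g + (E.rr p + 1 - g) := by omega
    rw [e, pow_add, Module.End.mul_apply]
    exact hg1 _
  obtain ⟨g', hg'⟩ : ∃ g', g = g' + 1 := ⟨g - 1, by omega⟩
  have h3 : ¬ ∀ m, E.ι ((E.N ^ g') m) * a = 0 := by
    apply Nat.find_min hn
    omega
  push Not at h3
  obtain ⟨m0, hm0⟩ := h3
  have h4 := E.hP (1 + E.c p) _ (E.hGm _ _ _ _ (E.hG1 _) ha) hm0 (E.Us g') (by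
    intro u hu
    rw [Us, Submodule.mem_comap, E.mem_S] at hu
    obtain ⟨m', b, hu⟩ := hu
    have e1 : E.ι u * (E.ι ((E.N ^ g') m0) * a) = E.ι ((E.N ^ g') u) * (E.ι m0 * a) :=
      (Mov.pow E hm g' u m0).symm
    rw [e1, hu, map_add, map_smul, add_mul, mul_left_comm, ← hg', hg1, mul_zero, zero_add,
      smul_mul_assoc, mul_left_comm, hya, mul_zero, smul_zero])
  have h5 := Submodule.finrank_mono (E.Us_mono (show E.rr p + 1 ≤ g' by omega))
  have h6 := Nat.mul_le_mul_right (E.d - 1) h5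
  omega

/-- dimension of `S r` -/
noncomputable def s (r : ℕ) : ℕ := Module.finrank F (E.S r)

theorem s_anti (r : ℕ) : E.s (r + 1) ≤ E.s r := Submodule.finrank_mono (E.S_succ_le r)

theorem s_pos (r : ℕ) : 1 ≤ E.s r := by
  have hy : E.y ≠ 0 := by
    intro h
    apply E.h1
    rw [h, map_zero, zero_mul]
  have h1 : Module.finrank F (Submodule.span F {E.y}) = 1 := finrank_span_singleton hy
  rw [← h1]
  exact Submodule.finrank_mono le_sup_right

theorem ineq {p : ℕ} (hp : p < E.M) :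
    (E.k + 1 - E.c p) + 1 ≤ (E.s (E.rr p + 1) - E.s (E.rr p + 2)) * (E.d - 1) := by
  have h1 := E.key hp
  have h2 := E.finrank_Us (E.rr p + 1)
  have h3 := E.c_le hp.le
  have h4 := E.hk
  have h5 := E.s_anti (E.rr p + 1)
  change Module.finrank F V + E.s (E.rr p + 2) ≤
    Module.finrank F (E.Us (E.rr p + 1)) + E.s (E.rr p + 1) at h2
  have h6 := Nat.mul_le_mul_right (E.d - 1) h2
  rw [add_mul, add_mul] at h6
  rw [Nat.sub_mul]
  omega

theorem rr_le (p : ℕ) : E.rr p ≤ p := by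
  induction p with
  | zero => exact le_refl _
  | succ p ih =>
    rw [rr]
    split_ifs
    · omega
    · omega

theorem rr_lt {p q : ℕ} (hpq : p < q) (hq : q ≤ E.M) (hc : E.c p = E.c q) : E.rr p < E.rr q := by
  induction q, hpq using Nat.le_induction with
  | base => rw [rr, if_pos hc.symm]; omega
  | succ q hq' ih =>
    have h1 : E.c (q + 1) ≤ E.c q := E.c_succ (by omega)
    have h2 : E.c q ≤ E.c p := E.c_anti (by omega) (by omega)
    have h3 : E.c (q + 1) = E.c q := by omega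
    rw [rr, if_pos h3]
    have := ih (by omega) (by omega)
    omega

theorem sum_s (n : ℕ) :
    ∑ r ∈ Finset.range n, (E.s (r + 1) - E.s (r + 2)) + E.s (n + 1) = E.s 1 := by
  induction n with
  | zero => simp
  | succ n ih =>
    rw [Finset.sum_range_succ]
    have h := E.s_anti (n + 1)
    change E.s (n + 2) ≤ E.s (n + 1) at h
    change _ + (E.s (n + 1) - E.s (n + 2)) + E.s (n + 2) = _
    omega

theorem M_le : E.M ≤ (E.s 1 - 1) * (E.d - 1) := by
  classical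
  let T : Finset (Σ _ : ℕ, ℕ) := (Finset.range E.M).sigma
    (fun r => Finset.range ((E.s (r + 1) - E.s (r + 2)) * (E.d - 1)))
  have h1 : (Finset.range E.M).card ≤ T.card := by
    apply Finset.card_le_card_of_injOn (fun p => (⟨E.rr p, E.k + 1 - E.c p⟩ : Σ _ : ℕ, ℕ))
    · intro p hp
      have hp' : p < E.M := Finset.mem_range.1 hp
      refine Finset.mem_coe.2 (Finset.mem_sigma.2 ⟨Finset.mem_range.2 ?_, Finset.mem_range.2 ?_⟩)
      · have := E.rr_le p
        change E.rr p < E.M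
        omega
      · exact E.ineq hp'
    · intro p hp q hq hpq
      have hp' : p < E.M := Finset.mem_range.1 hp
      have hq' : q < E.M := Finset.mem_range.1 hq
      rw [Sigma.mk.injEq] at hpq
      obtain ⟨h1, h2⟩ := hpq
      have h2' : E.k + 1 - E.c p = E.k + 1 - E.c q := eq_of_heq h2
      have h3 := E.c_le hp'.le
      have h4 := E.c_le hq'.le
      rcases lt_trichotomy p q with h | h | h
      · have := E.rr_lt h hq'.le (by omega)
        omega
      · exact h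
      · have := E.rr_lt h hp'.le (by omega)
        omega
  rw [Finset.card_range, Finset.card_sigma] at h1
  simp only [Finset.card_range] at h1
  rw [← Finset.sum_mul] at h1
  have h2 := E.sum_s E.M
  have h3 := E.s_pos (E.M + 1)
  refine h1.trans (Nat.mul_le_mul_right _ ?_)
  omega

theorem le_M : E.s 1 * (E.d - 1) ≤ E.M := by
  have hne : E.ι E.y ^ E.M ≠ 0 := by
    have h1 := E.M_pos
    have h2 := E.kk_min (p := E.M - 1) (q := 0) (E.one_le_kk (by omega))
    rw [pow_zero, mul_one] at h2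
    have e : E.M - 1 + 1 = E.M := by omega
    rwa [e] at h2
  apply E.hP E.M _ (E.pow_mem E.y E.M) hne (E.S 1)
  intro u hu
  obtain ⟨m, a, rfl⟩ := E.mem_S.1 hu
  rw [pow_one, map_add, map_smul, add_mul, mul_comm (E.ι (E.N m)), E.N_y_pow, zero_add,
    smul_mul_assoc, ← pow_succ', E.y_pow_M, smul_zero]

include E in
theorem false : False := by
  have h1 := E.le_M
  have h2 := E.M_le
  have h3 := E.s_pos 1
  have h4 := E.hd
  have h5 : E.s 1 * (E.d - 1) = (E.s 1 - 1) * (E.d - 1) + (E.d - 1) := by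
    obtain ⟨t, ht⟩ : ∃ t, E.s 1 = t + 1 := ⟨E.s 1 - 1, by omega⟩
    rw [ht, Nat.add_sub_cancel, add_mul, one_mul]
  omega

end Dat

theorem no_kernel {F V A : Type*} [Field F] [CharZero F] [AddCommGroup V] [Module F V]
    [FiniteDimensional F V] [CommRing A] [Algebra F A] (ι : V →ₗ[F] A)
    (G : ℕ → Submodule F A) (hG0 : (1 : A) ∈ G 0) (hG1 : ∀ v, ι v ∈ G 1)
    (hGm : ∀ i j a b, a ∈ G i → b ∈ G j → a * b ∈ G (i + j)) (d : ℕ) (hd : 2 ≤ d)
    (hP : ∀ c, ∀ z ∈ G c, z ≠ 0 → ∀ U : Submodule F V, (∀ u ∈ U, ι u * z = 0) →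
      Module.finrank F U * (d - 1) ≤ c)
    (l y : V) (N : V →ₗ[F] V) (hNy : N y = 0) (k : ℕ)
    (hk : k + 3 ≤ Module.finrank F V * (d - 1))
    (h0 : ι y * ι l ^ (k + 1) = 0) (h1 : ι y * ι l ^ k ≠ 0)
    (hrel : ∀ p q, ι y ^ (p + 1) * ι l ^ (q + 1) = 0 → ∀ m,
      ((p + 1 : ℕ) : A) * (ι y ^ p * ι (N m) * ι l ^ (q + 1)) +
        ((q + 1 : ℕ) : A) * (ι y ^ (p + 1) * ι l ^ q * ι m) = 0)
    (hrel0 : ∀ p, ι y ^ (p + 1) = 0 → ∀ m, ((p + 1 : ℕ) : A) * (ι y ^ p * ι (N m)) = 0) :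
    False :=
  (⟨ι, G, hG0, hG1, hGm, d, hd, hP, l, y, N, hNy, k, hk, h0, h1, hrel, hrel0⟩ :
    Dat F V A).false

end Pool.Agent.Lib.Pf179e6
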