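import Mathlib

/-! The field `FF K n = K(t_1, .., t_n)`, the generic linear form and linear forms with given
coefficients. -/

namespace Pool.Agent.Lib.Pf179e6

open MvPolynomial

/-- `K(t_1, .., t_n)` -/
abbrev FF (K : Type*) [Field K] (n : ℕ) : Type _ := FractionRing (MvPolynomial (Fin n) K)

/-- the variable `t_i` of `K(t_1, .., t_n)` -/
noncomputable def tt (K : Type*) [Field K] (n : ℕ) (i : Fin n) : FF K n :=
  algebraMap (MvPolynomial (Fin n) K) (FF K n) (X i)

/-- the linear form with coefficients `v` -/
noncomputable def lin {F : Type*} [Field F] {n : ℕ} (v : Fin n → F) : MvPolynomial (Fin n) F :=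
  ∑ i, C (v i) * X i

end Pool.Agent.Lib.Pf179e6
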