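import Pool.Agent.Lib.Pf179e6.Lin
import Pool.Agent.Lib.Pf72953.DBasis

/-! Derivations of `K(t)[x]` that differentiate the coefficients. -/

namespace Pool.Agent.Lib.Pf179e6

open MvPolynomial

variable {K : Type*} [Field K] [CharZero K] {n : ℕ}

theorem exists_pd : ∃ e : Fin n → Derivation K (FF K n) (FF K n),
    ∀ i j, e i (tt K n j) = if i = j then 1 else 0 := by
  have : Algebra.IsAlgebraic (MvPolynomial (Fin n) K) (FF K n) :=
    IsLocalization.isAlgebraic _ (nonZeroDivisors (MvPolynomial (Fin n) K))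
  have h : IsTranscendenceBasis K (tt K n) :=
    (IsTranscendenceBasis.mvPolynomial (Fin n) K).algebraMap_comp
  exact ⟨fun i => Pf72953.pd h i, fun i j => Pf72953.pd_self h i j⟩

/-- `∂/∂t_i` -/
noncomputable def pp (K : Type*) [Field K] [CharZero K] (n : ℕ) (i : Fin n) :
    Derivation K (FF K n) (FF K n) := (exists_pd (K := K) (n := n)).choose i

theorem pp_tt (i j : Fin n) : pp K n i (tt K n j) = if i = j then 1 else 0 :=
  (exists_pd (K := K) (n := n)).choose_spec i j

/-- the derivation `∑ m_i ∂/∂t_i` of `K(t)` -/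
noncomputable def dm (m : Fin n → FF K n) (a : FF K n) : FF K n := ∑ i, m i * pp K n i a

theorem dm_add (m : Fin n → FF K n) (a b : FF K n) : dm m (a + b) = dm m a + dm m b := by
  simp only [dm, map_add, mul_add, Finset.sum_add_distrib]

theorem dm_zero (m : Fin n → FF K n) : dm m (0 : FF K n) = 0 := by
  simp only [dm, map_zero, mul_zero, Finset.sum_const_zero]

theorem dm_mul (m : Fin n → FF K n) (a b : FF K n) :
    dm m (a * b) = a * dm m b + b * dm m a := by
  simp only [dm, Derivation.leibniz, smul_eq_mul, Finset.mul_sum, ← Finset.sum_add_distrib]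
  refine Finset.sum_congr rfl fun i _ => ?_
  ring

theorem dm_algebraMap (m : Fin n → FF K n) (a : K) : dm m (algebraMap K (FF K n) a) = 0 := by
  simp only [dm, Derivation.map_algebraMap, mul_zero, Finset.sum_const_zero]

theorem dm_tt (m : Fin n → FF K n) (j : Fin n) : dm m (tt K n j) = m j := by
  simp only [dm, pp_tt]
  simp

noncomputable def dmHom (m : Fin n → FF K n) : FF K n →+ FF K n where
  toFun := dm m
  map_zero' := dm_zero m
  map_add' := dm_add m

/-- coefficientwise map -/
noncomputable def cw (f : FF K n →+ FF K n) :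
    MvPolynomial (Fin n) (FF K n) →+ MvPolynomial (Fin n) (FF K n) where
  toFun p := ∑ s ∈ p.support, monomial s (f (coeff s p))
  map_zero' := by simp
  map_add' p q := by
    classical
    ext s
    simp only [coeff_add, coeff_sum, coeff_monomial, Finset.sum_ite_eq', mem_support_iff]
    have key : ∀ r : MvPolynomial (Fin n) (FF K n),
        (if coeff s r ≠ 0 then f (coeff s r) else 0) = f (coeff s r) := by
      intro r
      by_cases h : coeff s r = 0
      · simp [h]
      · simp [h]
    rw [key p, key q]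
    have := key (p + q)
    simp only [coeff_add] at this
    rw [this, map_add]

omit [CharZero K] in
theorem coeff_cw (f : FF K n →+ FF K n) (p : MvPolynomial (Fin n) (FF K n)) (s : Fin n →₀ ℕ) :
    coeff s (cw f p) = f (coeff s p) := by
  classical
  change coeff s (∑ s ∈ p.support, monomial s (f (coeff s p))) = _
  simp only [coeff_sum, coeff_monomial, Finset.sum_ite_eq', mem_support_iff]
  by_cases h : coeff s p = 0
  · simp [h]
  · simp [h]

/-- Coefficientwise derivation of `K(t)[x]` (e.g. `Finsupp.mapRange`), with its rules. -/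
theorem exists_dd (m : Fin n → FF K n) :
    ∃ δ : MvPolynomial (Fin n) (FF K n) →+ MvPolynomial (Fin n) (FF K n),
      (∀ a b, δ (a * b) = a * δ b + b * δ a) ∧
      (∀ a, δ (C a) = C (dm m a)) ∧
      (∀ i, δ (X i) = 0) ∧
      (∀ p : MvPolynomial (Fin n) K, δ (map (algebraMap K (FF K n)) p) = 0) := by
  classical
  refine ⟨cw (dmHom m), ?_, ?_, ?_, ?_⟩
  · intro a b
    ext s
    rw [coeff_cw, mul_comm b, coeff_add, coeff_mul, coeff_mul, coeff_mul, map_sum,
      ← Finset.sum_add_distrib]
    refine Finset.sum_congr rfl fun x _ => ?_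
    rw [coeff_cw, coeff_cw]
    change dm m _ = _ * dm m _ + dm m _ * _
    rw [dm_mul]
    ring
  · intro a
    ext s
    rw [coeff_cw, coeff_C, coeff_C]
    change dm m _ = _
    split_ifs
    · rfl
    · exact dm_zero m
  · intro i
    ext s
    rw [coeff_cw, coeff_X, coeff_zero]
    change dm m _ = _
    split_ifs
    · have := dm_algebraMap m (1 : K)
      rwa [map_one] at this
    · exact dm_zero m
  · intro p
    ext s
    rw [coeff_cw, coeff_map, coeff_zero]
    exact dm_algebraMap m _

theorem dd_lin {m : Fin n → FF K n}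
    {δ : MvPolynomial (Fin n) (FF K n) →+ MvPolynomial (Fin n) (FF K n)}
    (h1 : ∀ a b, δ (a * b) = a * δ b + b * δ a) (h2 : ∀ a, δ (C a) = C (dm m a))
    (h3 : ∀ i, δ (X i) = 0) (y : Fin n → FF K n) :
    δ (lin y) = lin (fun j => dm m (y j)) := by
  simp only [lin, map_sum, h1, h2, h3, mul_zero, zero_add]
  refine Finset.sum_congr rfl fun i _ => ?_
  ring

omit [CharZero K] in
theorem dd_pow {δ : MvPolynomial (Fin n) (FF K n) →+ MvPolynomial (Fin n) (FF K n)}
    (h1 : ∀ a b, δ (a * b) = a * δ b + b * δ a) (a : MvPolynomial (Fin n) (FF K n)) (p : ℕ) :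
    δ (a ^ (p + 1)) = ((p + 1 : ℕ) : MvPolynomial (Fin n) (FF K n)) * (a ^ p * δ a) := by
  induction p with
  | zero => simp
  | succ p ih =>
    rw [pow_succ, h1, ih]
    push_cast
    ring

omit [CharZero K] in
theorem dd_mem {δ : MvPolynomial (Fin n) (FF K n) →+ MvPolynomial (Fin n) (FF K n)}
    (h1 : ∀ a b, δ (a * b) = a * δ b + b * δ a)
    (h4 : ∀ p : MvPolynomial (Fin n) K, δ (map (algebraMap K (FF K n)) p) = 0)
    (rs : List (MvPolynomial (Fin n) K)) (p : MvPolynomial (Fin n) (FF K n))
    (hp : p ∈ Ideal.ofList (rs.map (map (algebraMap K (FF K n))))) :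
    δ p ∈ Ideal.ofList (rs.map (map (algebraMap K (FF K n)))) := by
  unfold Ideal.ofList at hp ⊢
  induction hp using Submodule.span_induction with
  | mem x hx =>
    obtain ⟨r, hr, rfl⟩ := List.mem_map.1 hx
    rw [h4]
    exact Submodule.zero_mem _
  | zero => rw [map_zero]; exact Submodule.zero_mem _
  | add x y _ _ hx hy => rw [map_add]; exact Submodule.add_mem _ hx hy
  | smul a x hx hx' =>
    rw [smul_eq_mul, h1]
    exact Ideal.add_mem _ (Ideal.mul_mem_left _ _ hx') (Ideal.mul_mem_right _ _ hx)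

/-- The consequence that is used: a relation `y^(p+1) l^(q+1) ∈ I` can be differentiated.
`I` is generated by polynomials over `K`; `lin (tt K n)` is the generic linear form. -/
theorem der_rel (rs : List (MvPolynomial (Fin n) K)) (y m : Fin n → FF K n) (p q : ℕ)
    (h : lin y ^ (p + 1) * lin (tt K n) ^ (q + 1) ∈
      Ideal.ofList (rs.map (map (algebraMap K (FF K n))))) :
    ((p + 1 : ℕ) : MvPolynomial (Fin n) (FF K n)) *
        (lin y ^ p * lin (fun j => dm m (y j)) * lin (tt K n) ^ (q + 1)) +
      ((q + 1 : ℕ) : MvPolynomial (Fin n) (FF K n)) *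
        (lin y ^ (p + 1) * lin (tt K n) ^ q * lin m) ∈
      Ideal.ofList (rs.map (map (algebraMap K (FF K n)))) := by
  obtain ⟨δ, h1, h2, h3, h4⟩ := exists_dd m
  have h5 := dd_mem h1 h4 rs _ h
  have h6 : lin (fun j => dm m (tt K n j)) = lin m := by
    congr 1
    funext j
    exact dm_tt m j
  rw [h1, dd_pow h1, dd_pow h1, dd_lin h1 h2 h3, dd_lin h1 h2 h3, h6] at h5
  convert h5 using 1
  ring

theorem der_rel0 (rs : List (MvPolynomial (Fin n) K)) (y m : Fin n → FF K n) (p : ℕ)
    (h : lin y ^ (p + 1) ∈ Ideal.ofList (rs.map (map (algebraMap K (FF K n))))) :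
    ((p + 1 : ℕ) : MvPolynomial (Fin n) (FF K n)) * (lin y ^ p * lin (fun j => dm m (y j))) ∈
      Ideal.ofList (rs.map (map (algebraMap K (FF K n)))) := by
  obtain ⟨δ, h1, h2, h3, h4⟩ := exists_dd m
  have h5 := dd_mem h1 h4 rs _ h
  rwa [dd_pow h1, dd_lin h1 h2 h3] at h5

end Pool.Agent.Lib.Pf179e6
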