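import Mathlib

/-! Linearly independent linear forms are a regular sequence. -/

namespace Pool.Agent.Lib.Pf179e6

variable {F : Type*} [Field F] {n : ℕ}

namespace LinRegAux

open MvPolynomial

/-- the linear form with given coefficients, as a linear map -/
noncomputable def lf (F : Type*) [Field F] (n : ℕ) : (Fin n → F) →ₗ[F] MvPolynomial (Fin n) F where
  toFun a := ∑ i, C (a i) * X i
  map_add' a b := by
    simp only [Pi.add_apply, C_add, add_mul, Finset.sum_add_distrib]
  map_smul' c a := by
    simp only [Pi.smul_apply, smul_eq_mul, C_mul, RingHom.id_apply, Finset.smul_sum, smul_eq_C_mul,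
      mul_assoc]

lemma lf_apply (a : Fin n → F) : lf F n a = ∑ i, C (a i) * X i := rfl

lemma lf_single (i : Fin n) : lf F n (Pi.single i 1) = X i := by
  rw [lf_apply, Finset.sum_eq_single i]
  · simp
  · intro j _ hj
    rw [Pi.single_eq_of_ne hj]
    simp
  · intro h
    exact absurd (Finset.mem_univ i) h

/-- a linear form is determined by its coefficients -/
lemma eq_lf {p : MvPolynomial (Fin n) F} (hp : p.IsHomogeneous 1) :
    p = lf F n (fun i => coeff (Finsupp.single i 1) p) := by
  classical
  ext m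
  rw [lf_apply, coeff_sum]
  simp only [coeff_C_mul, coeff_X]
  by_cases hm : coeff m p = 0
  · rw [hm]
    symm
    refine Finset.sum_eq_zero fun i _ => ?_
    by_cases h : Finsupp.single i 1 = m
    · rw [if_pos h, mul_one, h, hm]
    · rw [if_neg h, mul_zero]
  · have h1 : m.degree = 1 := by
      have := hp hm
      rwa [Finsupp.degree_eq_weight_one]
    have h2 : ∃ j, m = Finsupp.single j 1 := by
      have h3 : m ∈ Set.range fun i : Fin n => (Finsupp.single i 1 : Fin n →₀ ℕ) := by
        rw [Finsupp.range_single_one]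
        exact h1
      obtain ⟨j, hj⟩ := h3
      exact ⟨j, hj.symm⟩
    obtain ⟨j, rfl⟩ := h2
    rw [Finset.sum_eq_single j]
    · rw [if_pos rfl, mul_one]
    · intro i _ hij
      rw [if_neg, mul_zero]
      intro h
      exact hij ((Finsupp.single_left_inj one_ne_zero).1 h)
    · intro h
      exact absurd (Finset.mem_univ j) h

/-- the automorphism given by a basis -/
noncomputable def phi (b : Module.Basis (Fin n) F (Fin n → F)) :
    MvPolynomial (Fin n) F →ₐ[F] MvPolynomial (Fin n) F := aeval fun j => lf F n (b j)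

noncomputable def psi (b : Module.Basis (Fin n) F (Fin n → F)) :
    MvPolynomial (Fin n) F →ₐ[F] MvPolynomial (Fin n) F :=
  aeval fun i => lf F n (b.equivFun (Pi.single i 1))

lemma phi_X (b : Module.Basis (Fin n) F (Fin n → F)) (j : Fin n) : phi b (X j) = lf F n (b j) :=
  aeval_X _ _

lemma phi_lf (b : Module.Basis (Fin n) F (Fin n → F)) (a : Fin n → F) :
    phi b (lf F n a) = lf F n (∑ j, a j • b j) := by
  rw [lf_apply, map_sum, map_sum]
  refine Finset.sum_congr rfl fun j _ => ?_
  rw [map_mul, phi_X, map_smul, smul_eq_C_mul]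
  congr 1
  exact AlgHom.commutes (phi b) (a j)

lemma psi_lf (b : Module.Basis (Fin n) F (Fin n → F)) (a : Fin n → F) :
    psi b (lf F n a) = lf F n (b.equivFun a) := by
  rw [lf_apply, map_sum]
  have h1 : a = ∑ i, a i • (Pi.single i (1 : F) : Fin n → F) := by
    funext k
    rw [Finset.sum_apply, Finset.sum_eq_single k]
    · simp
    · intro j _ hj
      rw [Pi.smul_apply, Pi.single_eq_of_ne hj.symm, smul_zero]
    · intro h
      exact absurd (Finset.mem_univ k) h
  conv_rhs => rw [h1]
  rw [map_sum, map_sum]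
  refine Finset.sum_congr rfl fun j _ => ?_
  rw [map_mul, map_smul, map_smul, smul_eq_C_mul]
  congr 1
  · exact AlgHom.commutes (psi b) (a j)
  · exact aeval_X _ _

lemma phi_psi (b : Module.Basis (Fin n) F (Fin n → F)) (p : MvPolynomial (Fin n) F) :
    phi b (psi b p) = p := by
  have h : (phi b).comp (psi b) = AlgHom.id F _ := by
    apply MvPolynomial.algHom_ext
    intro i
    rw [AlgHom.comp_apply, AlgHom.id_apply, ← lf_single, psi_lf, phi_lf, lf_single]
    have h1 := b.sum_equivFun (Pi.single i (1 : F))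
    rw [h1, lf_single]
  exact DFunLike.congr_fun h p

lemma psi_phi_X (b : Module.Basis (Fin n) F (Fin n → F)) (j : Fin n) :
    psi b (phi b (X j)) = X j := by
  rw [phi_X, psi_lf]
  have h1 : b.equivFun (b j) = Pi.single j 1 := by
    funext k
    rw [Module.Basis.equivFun_apply, Module.Basis.repr_self, Finsupp.single_eq_pi_single]
  rw [h1, lf_single]

lemma exists_basis {u : ℕ} (a : Fin u → Fin n → F) (ha : LinearIndependent F a) :
    ∃ (B : Module.Basis (Fin n) F (Fin n → F)) (e : Fin u → Fin n), Function.Injective e ∧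
      ∀ w, B (e w) = a w := by
  let B0 := Module.Basis.sumExtend ha
  let σ := B0.indexEquiv (Pi.basisFun F (Fin n))
  refine ⟨B0.reindex σ, fun w => σ (Sum.inl w), fun w w' h => Sum.inl_injective (σ.injective h),
    fun w => ?_⟩
  rw [Module.Basis.reindex_apply, Equiv.symm_apply_apply]
  show Module.Basis.sumExtend ha (Sum.inl w) = a w
  unfold Module.Basis.sumExtend
  rw [Module.Basis.reindex_apply, Module.Basis.extend_apply_self]
  rfl

end LinRegAux

namespace LinRegAux

open MvPolynomial

/-- the case of variables -/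
lemma var_reg (s : Set (Fin n)) (j : Fin n) (hj : j ∉ s) (p : MvPolynomial (Fin n) F)
    (h : X j * p ∈ Ideal.span ((X : Fin n → MvPolynomial (Fin n) F) '' s)) :
    p ∈ Ideal.span ((X : Fin n → MvPolynomial (Fin n) F) '' s) := by
  rw [MvPolynomial.mem_ideal_span_X_image] at h ⊢
  intro m hm
  have h6 : Finsupp.single j 1 + m ∈ (X j * p).support := by
    rw [mem_support_iff, coeff_X_mul]
    exact mem_support_iff.1 hm
  obtain ⟨i, hi, hi2⟩ := h _ h6
  refine ⟨i, hi, ?_⟩
  have h7 : i ≠ j := fun h => hj (h ▸ hi)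
  rw [Finsupp.add_apply, Finsupp.single_eq_of_ne h7, zero_add] at hi2
  exact hi2

end LinRegAux

open LinRegAux MvPolynomial in
/-- Proof: extend to a basis of the space of linear forms; the algebra automorphism
`X i ↦ (i-th member of the basis)` reduces to variables, where
`MvPolynomial.mem_ideal_span_X_image` decides membership. -/
theorem lin_reg (u : ℕ) (x : ℕ → MvPolynomial (Fin n) F)
    (hx1 : ∀ v < u, (x v).IsHomogeneous 1)
    (hli : LinearIndependent F (fun v : Fin u => x v)) :
    ∀ v < u, ∀ b : MvPolynomial (Fin n) F, x v * b ∈ Ideal.span (x '' {i | i < v}) →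
      b ∈ Ideal.span (x '' {i | i < v}) := by
  intro v hv p hp
  have hxa : ∀ w : Fin u, x w = lf F n (fun i => coeff (Finsupp.single i 1) (x w)) :=
    fun w => eq_lf (hx1 w w.2)
  have hla : LinearIndependent F (fun (w : Fin u) (i : Fin n) =>
      coeff (Finsupp.single i 1) (x w)) := by
    have h1 : (fun w : Fin u => x w) = (lf F n) ∘
      (fun (w : Fin u) (i : Fin n) => coeff (Finsupp.single i 1) (x w)) := funext hxa
    rw [h1] at hli
    exact hli.of_comp _
  obtain ⟨B, e, heinj, hBe⟩ := exists_basis _ hla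
  have hphi : ∀ w : Fin u, phi B (X (e w)) = x w := by
    intro w
    rw [phi_X, hBe]
    exact (hxa w).symm
  have hpsi : ∀ w : Fin u, psi B (x w) = X (e w) := by
    intro w
    rw [← hphi, psi_phi_X]
  clear hxa hla hBe
  have hvs : e ⟨v, hv⟩ ∉ {j : Fin n | ∃ w : Fin u, (w : ℕ) < v ∧ e w = j} := by
    rintro ⟨w, hw, hw2⟩
    have := heinj hw2
    rw [this] at hw
    exact lt_irrefl _ hw
  have h1 : Ideal.span (x '' {i | i < v}) ≤ (Ideal.span ((X : Fin n → MvPolynomial (Fin n) F) ''
      {j : Fin n | ∃ w : Fin u, (w : ℕ) < v ∧ e w = j})).comap (psi B) := by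
    rw [Ideal.span_le]
    rintro _ ⟨i, hi, rfl⟩
    have hiu : i < u := lt_trans hi hv
    rw [SetLike.mem_coe, Ideal.mem_comap, hpsi ⟨i, hiu⟩]
    exact Ideal.subset_span (Set.mem_image_of_mem _ ⟨⟨i, hiu⟩, hi, rfl⟩)
  have h2 : Ideal.span ((X : Fin n → MvPolynomial (Fin n) F) ''
      {j : Fin n | ∃ w : Fin u, (w : ℕ) < v ∧ e w = j}) ≤
      (Ideal.span (x '' {i | i < v})).comap (phi B) := by
    rw [Ideal.span_le]
    rintro _ ⟨j, ⟨w, hw, rfl⟩, rfl⟩
    rw [SetLike.mem_coe, Ideal.mem_comap, hphi]
    exact Ideal.subset_span (Set.mem_image_of_mem _ hw)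
  have h3 := h1 hp
  rw [Ideal.mem_comap, map_mul, hpsi ⟨v, hv⟩] at h3
  have h5 := var_reg _ _ hvs _ h3
  have h6 := h2 h5
  rw [Ideal.mem_comap, phi_psi] at h6
  exact h6

end Pool.Agent.Lib.Pf179e6
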