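import Pool.Agent.Lib.Pf179e6.KosB
import Pool.Agent.Lib.Pf179e6.LinReg

/-! The bound: `U z = 0` and `z ≠ 0` in degree `c` imply `(d - 1) dim U ≤ c`. -/

namespace Pool.Agent.Lib.Pf179e6

open Matrix

variable {F : Type*} [Field F] {n : ℕ}

/-- Proof: `r = finrank U`, `x v` (`v < r`) a basis of `U` (`x v = 0` otherwise), `a J = z` for the
indices of size `r`, `0` otherwise.  All entries of `KD x r` are `0` or `± x v` (`KD_entry`), so
`KD x r *ᵥ a` has entries in the ideal.  If `c + r < r * d` then `kex_list` gives `θ`, supported in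
size `r + 1`, so `θ = 0` (`ksz_le`) and `z ∈ I` (`exists_ksz`). -/
theorem koszul_bound {d : ℕ} (rs : List (MvPolynomial (Fin n) F))
    (hd : ∀ r ∈ rs, r.IsHomogeneous d)
    (hreg : RingTheory.Sequence.IsWeaklyRegular (MvPolynomial (Fin n) F) rs)
    {c : ℕ} {z : MvPolynomial (Fin n) F} (hz : z.IsHomogeneous c) (hzI : z ∉ Ideal.ofList rs)
    (U : Submodule F (MvPolynomial (Fin n) F)) (hU : ∀ u ∈ U, u.IsHomogeneous 1)
    (hUz : ∀ u ∈ U, u * z ∈ Ideal.ofList rs) :
    Module.finrank F U * (d - 1) ≤ c := by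
  classical
  by_contra hcon
  push Not at hcon
  set r := Module.finrank F U with hr
  have hd1 : 1 ≤ d := by
    rcases Nat.eq_zero_or_pos d with h | h
    · subst h
      simp at hcon
    · exact h
  have hr0 : 0 < r := by
    rcases Nat.eq_zero_or_pos r with h | h
    · rw [h] at hcon
      simp at hcon
    · exact h
  have : Module.Finite F U := Module.finite_of_finrank_pos hr0
  have hlt : c + r < r * d := by
    have : r * d = r * (d - 1) + r := by
      obtain ⟨e, rfl⟩ : ∃ e, d = e + 1 := ⟨d - 1, by omega⟩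
      rw [Nat.add_sub_cancel]
      ring
    omega
  set B : Module.Basis (Fin r) F U := Module.finBasis F U with hB
  set x : ℕ → MvPolynomial (Fin n) F := fun v => if h : v < r then (B ⟨v, h⟩ : MvPolynomial (Fin n) F) else 0 with hx
  have hxv : ∀ v (h : v < r), x v = (B ⟨v, h⟩ : MvPolynomial (Fin n) F) := by
    intro v h
    simp only [hx, dif_pos h]
  have hxU : ∀ v < r, x v ∈ U := by
    intro v h
    rw [hxv v h]
    exact (B ⟨v, h⟩).2
  have hx1 : ∀ v < r, (x v).IsHomogeneous 1 := fun v h => hU _ (hxU v h)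
  have hli : LinearIndependent F (fun v : Fin r => x v) := by
    have h1 : LinearIndependent F (fun v : Fin r => (B v : MvPolynomial (Fin n) F)) :=
      B.linearIndependent.map' U.subtype (Submodule.ker_subtype U)
    have h2 : (fun v : Fin r => x v) = fun v : Fin r => (B v : MvPolynomial (Fin n) F) := by
      funext v
      exact hxv v v.2
    rw [h2]
    exact h1
  have hreg' := lin_reg r x hx1 hli
  have hkex := kex_list d x r hx1 hreg' rs hd hreg
  set a : KI r → MvPolynomial (Fin n) F := fun J => if ksz r J = r then z else 0 with ha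
  have haH : KHom r r c a := by
    intro J
    constructor
    · intro h
      simp only [ha, if_pos h]
      exact hz
    · intro h
      simp only [ha, if_neg h]
  have hKa : ∀ J, (KD x r *ᵥ a) J ∈ Ideal.ofList rs := by
    intro J
    rw [Matrix.mulVec, dotProduct]
    refine Ideal.sum_mem _ fun J' _ => ?_
    by_cases hJ' : ksz r J' = r
    · have haJ : a J' = z := by simp only [ha, if_pos hJ']
      rw [haJ]
      rcases KD_entry x r J J' with h0 | ⟨v, hv, h1 | h1⟩
      · rw [h0, zero_mul]
        exact Ideal.zero_mem _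
      · rw [h1]
        exact hUz _ (hxU v hv)
      · rw [h1, neg_mul]
        exact (Ideal.neg_mem_iff _).mpr (hUz _ (hxU v hv))
    · have haJ : a J' = 0 := by simp only [ha, if_neg hJ']
      rw [haJ, mul_zero]
      exact Ideal.zero_mem _
  obtain ⟨θ, hθ1, hθ2, hθ3⟩ := hkex r c a haH hKa hlt
  have hθ : θ = 0 := by
    rcases Nat.eq_zero_or_pos c with h | h
    · exact hθ2 h
    · obtain ⟨c', rfl⟩ : ∃ c', c = c' + 1 := ⟨c - 1, by omega⟩
      funext J
      refine (hθ1 c' rfl J).2 ?_
      have := ksz_le r J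
      omega
  obtain ⟨J, hJ⟩ := exists_ksz r
  have h3 := hθ3 J
  rw [hθ, Matrix.mulVec_zero] at h3
  have haJ : a J = z := by simp only [ha, if_pos hJ]
  rw [haJ] at h3
  simp at h3
  exact hzI h3

end Pool.Agent.Lib.Pf179e6
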