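import Pool.Agent.Lib.Pf179e6.Abs
import Pool.Agent.Lib.Pf179e6.KosC
import Pool.Agent.Lib.Pf179e6.Der

/-! The generic linear form. -/

namespace Pool.Agent.Lib.Pf179e6

open MvPolynomial

attribute [local instance] MvPolynomial.algebraMvPolynomial in
theorem reg_map {K F : Type*} [Field K] [Field F] [Algebra K F] {n : ℕ}
    (rs : List (MvPolynomial (Fin n) K))
    (hreg : RingTheory.Sequence.IsWeaklyRegular (MvPolynomial (Fin n) K) rs) :
    RingTheory.Sequence.IsWeaklyRegular (MvPolynomial (Fin n) F)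
      (rs.map (map (algebraMap K F))) := by
  have hf : Module.Flat (MvPolynomial (Fin n) K) (MvPolynomial (Fin n) F) := by
    have h : Algebra.IsPushout K (MvPolynomial (Fin n) K) F (MvPolynomial (Fin n) F) :=
      inferInstance
    exact Module.Flat.isBaseChange K (MvPolynomial (Fin n) K) F (MvPolynomial (Fin n) F) h.out
  exact hreg.of_flat

section General

variable {F : Type*} [Field F] {n d : ℕ}

theorem koszul_bound_lin (rs : List (MvPolynomial (Fin n) F))
    (hd : ∀ r ∈ rs, r.IsHomogeneous d)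
    (hreg : RingTheory.Sequence.IsWeaklyRegular (MvPolynomial (Fin n) F) rs)
    {c : ℕ} {z : MvPolynomial (Fin n) F} (hz : z.IsHomogeneous c) (hzI : z ∉ Ideal.ofList rs)
    (U : Submodule F (Fin n → F)) (hUz : ∀ u ∈ U, lin u * z ∈ Ideal.ofList rs) :
    Module.finrank F U * (d - 1) ≤ c := by
  have h1 := koszul_bound rs hd hreg hz hzI (U.map (linL F n))
    (by
      rintro _ ⟨u, _, rfl⟩
      exact lin_hom u)
    (by
      rintro _ ⟨u, hu, rfl⟩
      exact hUz u hu)
  rwa [← LinearEquiv.finrank_eq (Submodule.equivMapOfInjective (linL F n) linL_injective U)] at h1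

theorem one_notMem (rs : List (MvPolynomial (Fin n) F)) (hd2 : 2 ≤ d)
    (hd : ∀ r ∈ rs, r.IsHomogeneous d) : (1 : MvPolynomial (Fin n) F) ∉ Ideal.ofList rs := by
  intro h
  have h1 : Ideal.ofList rs ≤ RingHom.ker (constantCoeff (R := F) (σ := Fin n)) := by
    unfold Ideal.ofList
    rw [Ideal.span_le]
    intro r hr
    have hr' : r ∈ rs := hr
    change constantCoeff r = 0
    rw [constantCoeff_eq]
    apply (hd r hr').coeff_eq_zero
    simp
    omega
  have h2 := h1 h
  rw [RingHom.mem_ker, map_one] at h2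
  exact one_ne_zero h2

theorem lin_smul (a : F) (v : Fin n → F) : lin (a • v) = C a * lin v := by
  rw [← linL_apply, map_smul, linL_apply, smul_eq_C_mul]

/-- `ι` -/
noncomputable def iot (I : Ideal (MvPolynomial (Fin n) F)) :
    (Fin n → F) →ₗ[F] MvPolynomial (Fin n) F ⧸ I :=
  (Ideal.Quotient.mkₐ F I).toLinearMap ∘ₗ linL F n

theorem iot_apply (I : Ideal (MvPolynomial (Fin n) F)) (v : Fin n → F) :
    iot I v = Ideal.Quotient.mk I (lin v) := rfl

/-- classes of forms -/
noncomputable def GG (I : Ideal (MvPolynomial (Fin n) F)) (c : ℕ) :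
    Submodule F (MvPolynomial (Fin n) F ⧸ I) :=
  (homogeneousSubmodule (Fin n) F c).map (Ideal.Quotient.mkₐ F I).toLinearMap

theorem mem_GG (I : Ideal (MvPolynomial (Fin n) F)) (c : ℕ) (a : MvPolynomial (Fin n) F ⧸ I) :
    a ∈ GG I c ↔ ∃ z : MvPolynomial (Fin n) F, z.IsHomogeneous c ∧ Ideal.Quotient.mk I z = a := by
  unfold GG
  rw [Submodule.mem_map]
  rfl

end General

variable {K : Type*} [Field K] [CharZero K] {n : ℕ}

omit [CharZero K] in
/-- Weakly regular sequences stay weakly regular over `K(t)`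
(`RingTheory.Sequence.IsWeaklyRegular.of_flat`; `K[x] → F[x]` is flat). -/
theorem reg_up (rs : List (MvPolynomial (Fin n) K))
    (hreg : RingTheory.Sequence.IsWeaklyRegular (MvPolynomial (Fin n) K) rs) :
    RingTheory.Sequence.IsWeaklyRegular (MvPolynomial (Fin n) (FF K n))
      (rs.map (map (algebraMap K (FF K n)))) :=
  reg_map rs hreg

theorem dm_one (m : Fin n → FF K n) : dm m (1 : FF K n) = 0 := by
  have h := dm_algebraMap m (1 : K)
  rwa [map_one] at h

/-- `N m = (dm m (y j))_j` -/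
noncomputable def NN (y : Fin n → FF K n) : (Fin n → FF K n) →ₗ[FF K n] (Fin n → FF K n) where
  toFun m := fun j => dm m (y j)
  map_add' m m' := by
    funext j
    simp only [dm, Pi.add_apply, add_mul, Finset.sum_add_distrib]
  map_smul' c m := by
    funext j
    simp only [dm, Pi.smul_apply, smul_eq_mul, RingHom.id_apply, Finset.mul_sum, mul_assoc]

theorem NN_apply (y m : Fin n → FF K n) : NN y m = fun j => dm m (y j) := rfl

/-- Proof.  `A = F[x] / I`, `V = F^n`, `ι v` = class of `lin v`, `G c` = classes of forms of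
degree `c`, `hP` from `koszul_bound` (`U` replaced by its image under `linL`).  Take `k` minimal
with a non-zero vector in the kernel, and in the kernel of the minimal `k` a non-zero vector `y` of
minimal support, with one coordinate equal to `1`.  `N m = (dm m (y j))_j`.  `y² l^(k-1) = 0`
(relation times `y`, then `hP` with `U = ⊤`), so `N y` is in the kernel and has smaller support,
so `N y = 0`.  Then `no_kernel`. -/
theorem generic {d : ℕ} (hd : 2 ≤ d) (rs : List (MvPolynomial (Fin n) K))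
    (hdeg : ∀ r ∈ rs, r.IsHomogeneous d)
    (hreg : RingTheory.Sequence.IsWeaklyRegular (MvPolynomial (Fin n) K) rs)
    (k : ℕ) (hk : k + 2 ≤ n * (d - 1)) (v : Fin n → FF K n)
    (hv : lin (tt K n) ^ k * lin v ∈ Ideal.ofList (rs.map (map (algebraMap K (FF K n))))) :
    v = 0 := by
  classical
  by_contra hv0
  have hreg' := reg_up rs hreg
  have hdeg' : ∀ r ∈ rs.map (map (algebraMap K (FF K n))), r.IsHomogeneous d := by
    intro r hr
    obtain ⟨r', hr', rfl⟩ := List.mem_map.1 hr
    exact (hdeg r' hr').map _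
  have h1I := one_notMem _ hd hdeg'
  have hrel1 := fun (y m : Fin n → FF K n) (p q : ℕ) => der_rel rs y m p q
  have hrel2 := fun (y m : Fin n → FF K n) (p : ℕ) => der_rel0 rs y m p
  have hKB : ∀ {c : ℕ} {z : MvPolynomial (Fin n) (FF K n)}, z.IsHomogeneous c →
      z ∉ Ideal.ofList (rs.map (map (algebraMap K (FF K n)))) →
      ∀ U : Submodule (FF K n) (Fin n → FF K n),
      (∀ u ∈ U, lin u * z ∈ Ideal.ofList (rs.map (map (algebraMap K (FF K n))))) →
      Module.finrank (FF K n) U * (d - 1) ≤ c := fun hz hzI U hU =>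
    koszul_bound_lin _ hdeg' hreg' hz hzI U hU
  generalize Ideal.ofList (rs.map (map (algebraMap K (FF K n)))) = I at *
  -- minimal k
  have hex : ∃ k, ∃ v : Fin n → FF K n, v ≠ 0 ∧ lin (tt K n) ^ k * lin v ∈ I := ⟨k, v, hv0, hv⟩
  set k0 := Nat.find hex with hk0
  have hk0le : k0 ≤ k := Nat.find_min' hex ⟨v, hv0, hv⟩
  obtain ⟨v0, hv0n, hv0k⟩ := Nat.find_spec hex
  rw [← hk0] at hv0k
  have hmin : ∀ k' < k0, ∀ w : Fin n → FF K n, lin (tt K n) ^ k' * lin w ∈ I → w = 0 := by
    intro k' hk' w hw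
    by_contra hw0
    exact Nat.find_min hex hk' ⟨w, hw0, hw⟩
  -- k0 ≥ 1
  have hk1 : 1 ≤ k0 := by
    by_contra h
    have h0 : k0 = 0 := by omega
    rw [h0, pow_zero, one_mul] at hv0k
    have h2 := hKB (c := 0) (z := 1) (isHomogeneous_one _ _) h1I (Submodule.span (FF K n) {v0})
      (by
        intro u hu
        obtain ⟨a, rfl⟩ := Submodule.mem_span_singleton.1 hu
        rw [mul_one, lin_smul]
        exact Ideal.mul_mem_left _ _ hv0k)
    rw [finrank_span_singleton hv0n] at h2
    omega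
  obtain ⟨k', hk'⟩ : ∃ k', k0 = k' + 1 := ⟨k0 - 1, by omega⟩
  rw [hk'] at hv0k hmin
  -- minimal support
  have hexs : ∃ s, ∃ y : Fin n → FF K n, y ≠ 0 ∧ lin (tt K n) ^ (k' + 1) * lin y ∈ I ∧
      (Finset.univ.filter (fun j => y j ≠ 0)).card = s := ⟨_, v0, hv0n, hv0k, rfl⟩
  set s := Nat.find hexs with hs
  obtain ⟨y1, hy1n, hy1k, hy1s⟩ := Nat.find_spec hexs
  rw [← hs] at hy1s
  have hsmin : ∀ w : Fin n → FF K n, lin (tt K n) ^ (k' + 1) * lin w ∈ I →
      (Finset.univ.filter (fun j => w j ≠ 0)).card < s → w = 0 := by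
    intro w hw hc
    by_contra hw0
    exact Nat.find_min hexs hc ⟨w, hw0, hw, rfl⟩
  obtain ⟨j0, hj0⟩ : ∃ j, y1 j ≠ 0 := by
    by_contra h
    push Not at h
    exact hy1n (funext h)
  obtain ⟨y, hyn, hyk, hys, hyj⟩ : ∃ y : Fin n → FF K n, y ≠ 0 ∧
      lin (tt K n) ^ (k' + 1) * lin y ∈ I ∧
      (Finset.univ.filter (fun j => y j ≠ 0)).card = s ∧ y j0 = 1 := by
    refine ⟨(y1 j0)⁻¹ • y1, ?_, ?_, ?_, ?_⟩
    · exact smul_ne_zero (inv_ne_zero hj0) hy1n
    · rw [lin_smul, mul_left_comm]
      exact Ideal.mul_mem_left _ _ hy1k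
    · rw [← hy1s]
      congr 1
      ext j
      simp only [Finset.mem_filter, Finset.mem_univ, true_and, Pi.smul_apply, smul_eq_mul]
      constructor
      · intro h h2
        exact h (by rw [h2, mul_zero])
      · intro h
        exact mul_ne_zero (inv_ne_zero hj0) h
    · rw [Pi.smul_apply, smul_eq_mul, inv_mul_cancel₀ hj0]
  have hyk' : lin y ^ (0 + 1) * lin (tt K n) ^ (k' + 1) ∈ I := by
    rw [zero_add, pow_one, mul_comm]
    exact hyk
  have hcast : ∀ (a : MvPolynomial (Fin n) (FF K n)),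
      ((k' + 1 : ℕ) : MvPolynomial (Fin n) (FF K n)) * a ∈ I → a ∈ I := by
    intro a ha
    have hne : ((k' + 1 : ℕ) : FF K n) ≠ 0 := by
      have : CharZero (FF K n) := inferInstance
      exact Nat.cast_ne_zero.2 (by omega)
    have h2 : a = C (((k' + 1 : ℕ) : FF K n)⁻¹) *
        (((k' + 1 : ℕ) : MvPolynomial (Fin n) (FF K n)) * a) := by
      rw [← mul_assoc, ← map_natCast (C (σ := Fin n) (R := FF K n)), ← C_mul,
        inv_mul_cancel₀ hne, C_1, one_mul]
    rw [h2]
    exact Ideal.mul_mem_left _ _ ha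
  -- y² l^k' = 0
  have hsq : lin y ^ 2 * lin (tt K n) ^ k' ∈ I := by
    by_contra hnot
    have hhom : (lin y ^ 2 * lin (tt K n) ^ k').IsHomogeneous (1 * 2 + 1 * k') :=
      ((lin_hom y).pow 2).mul ((lin_hom (tt K n)).pow k')
    have h2 := hKB hhom hnot ⊤ (by
      intro m _
      apply hcast
      have h3 := hrel1 y m 0 k' hyk'
      have h4 := Ideal.mul_mem_left I (lin y) h3
      have h5 : ((k' + 1 : ℕ) : MvPolynomial (Fin n) (FF K n)) *
          (lin m * (lin y ^ 2 * lin (tt K n) ^ k')) =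
          lin y * (((0 + 1 : ℕ) : MvPolynomial (Fin n) (FF K n)) *
              (lin y ^ 0 * lin (fun j => dm m (y j)) * lin (tt K n) ^ (k' + 1)) +
            ((k' + 1 : ℕ) : MvPolynomial (Fin n) (FF K n)) *
              (lin y ^ (0 + 1) * lin (tt K n) ^ k' * lin m)) -
          lin (fun j => dm m (y j)) * (lin (tt K n) ^ (k' + 1) * lin y) := by
        push_cast
        ring
      rw [h5]
      exact Ideal.sub_mem _ h4 (Ideal.mul_mem_left _ _ hyk))
    rw [finrank_top, Module.finrank_fin_fun] at h2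
    omega
  -- N y is in the kernel
  have hNyk : lin (tt K n) ^ (k' + 1) * lin (NN y y) ∈ I := by
    have h3 := hrel1 y y 0 k' hyk'
    have h5 : lin (tt K n) ^ (k' + 1) * lin (NN y y) =
          (((0 + 1 : ℕ) : MvPolynomial (Fin n) (FF K n)) *
              (lin y ^ 0 * lin (fun j => dm y (y j)) * lin (tt K n) ^ (k' + 1)) +
            ((k' + 1 : ℕ) : MvPolynomial (Fin n) (FF K n)) *
              (lin y ^ (0 + 1) * lin (tt K n) ^ k' * lin y)) -
          ((k' + 1 : ℕ) : MvPolynomial (Fin n) (FF K n)) * (lin y ^ 2 * lin (tt K n) ^ k') := by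
      rw [NN_apply]
      push_cast
      ring
    rw [h5]
    exact Ideal.sub_mem _ h3 (Ideal.mul_mem_left _ _ hsq)
  have hNy : NN y y = 0 := by
    apply hsmin _ hNyk
    rw [← hys]
    apply Finset.card_lt_card
    rw [Finset.ssubset_iff_of_subset]
    · refine ⟨j0, ?_, ?_⟩
      · simp only [Finset.mem_filter, Finset.mem_univ, true_and]
        rw [hyj]
        exact one_ne_zero
      · simp only [Finset.mem_filter, Finset.mem_univ, true_and, not_not]
        rw [NN_apply]
        change dm y (y j0) = 0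
        rw [hyj, dm_one]
    · intro j
      simp only [Finset.mem_filter, Finset.mem_univ, true_and]
      intro h h2
      apply h
      rw [NN_apply]
      change dm y (y j) = 0
      rw [h2, dm_zero]
  -- apply no_kernel
  refine no_kernel (F := FF K n) (V := Fin n → FF K n) (A := MvPolynomial (Fin n) (FF K n) ⧸ I)
    (iot I) (GG I) ?_ ?_ ?_ d hd ?_ (tt K n) y (NN y) hNy k' ?_ ?_ ?_ ?_ ?_
  · rw [mem_GG]
    exact ⟨1, isHomogeneous_one _ _, map_one _⟩
  · intro v
    rw [mem_GG]
    exact ⟨lin v, lin_hom v, rfl⟩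
  · intro i j a b ha hb
    rw [mem_GG] at ha hb ⊢
    obtain ⟨a', ha', rfl⟩ := ha
    obtain ⟨b', hb', rfl⟩ := hb
    exact ⟨a' * b', ha'.mul hb', map_mul _ _ _⟩
  · intro c z hz hz0 U hU
    rw [mem_GG] at hz
    obtain ⟨z', hz', rfl⟩ := hz
    apply hKB hz'
    · intro h
      exact hz0 (Ideal.Quotient.eq_zero_iff_mem.2 h)
    · intro u hu
      rw [← Ideal.Quotient.eq_zero_iff_mem, map_mul]
      exact hU u hu
  · rw [Module.finrank_fin_fun]
    omega
  · rw [iot_apply, iot_apply, ← map_pow, ← map_mul, Ideal.Quotient.eq_zero_iff_mem, mul_comm]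
    exact hyk
  · intro h
    rw [iot_apply, iot_apply, ← map_pow, ← map_mul, Ideal.Quotient.eq_zero_iff_mem, mul_comm] at h
    exact hyn (hmin k' (by omega) y h)
  · intro p q h m
    rw [iot_apply, iot_apply, ← map_pow, ← map_pow, ← map_mul, Ideal.Quotient.eq_zero_iff_mem] at h
    have h2 := hrel1 y m p q h
    rw [← Ideal.Quotient.eq_zero_iff_mem] at h2
    simp only [map_add, map_mul, map_pow, map_natCast] at h2
    exact h2
  · intro p h m
    rw [iot_apply, ← map_pow, Ideal.Quotient.eq_zero_iff_mem] at h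
    have h2 := hrel2 y m p h
    rw [← Ideal.Quotient.eq_zero_iff_mem] at h2
    simp only [map_mul, map_pow, map_natCast] at h2
    exact h2

end Pool.Agent.Lib.Pf179e6
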