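import Pool.Agent.Lib.Pf179e6.Top

/-! The Hilbert function of `K[x]/I` and its behaviour under a non-zero-divisor. -/

namespace Pool.Agent.Lib.Pf179e6

open MvPolynomial

variable {K : Type*} [Field K] {n : ℕ}

/-- the forms of degree `t` in `I` -/
noncomputable def Ideg (I : Ideal (MvPolynomial (Fin n) K)) (t : ℕ) : Submodule K (MvPolynomial (Fin n) K) :=
  I.restrictScalars K ⊓ homogeneousSubmodule (Fin n) K t

/-- the dimension of the degree `t` part of `K[x]/I` -/
noncomputable def hf (I : Ideal (MvPolynomial (Fin n) K)) (t : ℕ) : ℕ :=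
  Module.finrank K (homogeneousSubmodule (Fin n) K t) - Module.finrank K (Ideg I t)

/-- `K[x]_t` is finite-dimensional, of dimension the number of monomials
(`homogeneousSubmodule_eq_finsupp_supported`). -/
theorem finite_hom (t : ℕ) : Module.Finite K (homogeneousSubmodule (Fin n) K t) :=
  Module.Finite.iff_fg.2 (homogeneousSubmodule_fg _ _ t)

namespace HilbAAux

/-- the exponent vectors of degree `t` -/
noncomputable def expEquiv (n t : ℕ) : ({d | d.degree = t} : Set (Fin n →₀ ℕ)) ≃
    {a : Fin n → ℕ // ∑ j, a j = t} where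
  toFun d := ⟨fun j => d.1 j, by
    have h := d.2
    rwa [Set.mem_ofPred_eq, Finsupp.degree_eq_sum] at h⟩
  invFun a := ⟨Finsupp.equivFunOnFinite.symm a.1, by
    rw [Set.mem_ofPred_eq, Finsupp.degree_eq_sum]
    exact a.2⟩
  left_inv d := by
    apply Subtype.ext
    ext j
    rfl
  right_inv a := by
    apply Subtype.ext
    funext j
    rfl

/-- components of a product with a form -/
theorem hc_mul {p : MvPolynomial (Fin n) K} {k : ℕ} (hp : p.IsHomogeneous k)
    (q : MvPolynomial (Fin n) K) (m : ℕ) :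
    homogeneousComponent m (p * q) = if k ≤ m then p * homogeneousComponent (m - k) q else 0 := by
  have h1 : ∀ i, homogeneousComponent m (p * homogeneousComponent i q) =
      if m = k + i then p * homogeneousComponent i q else 0 := fun i =>
    homogeneousComponent_of_mem (hp.mul (homogeneousComponent_isHomogeneous i q))
  have h2 : homogeneousComponent m (p * q) = ∑ i ∈ Finset.range (q.totalDegree + 1),
      if m = k + i then p * homogeneousComponent i q else 0 := by
    calc homogeneousComponent m (p * q)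
        = homogeneousComponent m (p * ∑ i ∈ Finset.range (q.totalDegree + 1),
            homogeneousComponent i q) := by rw [sum_homogeneousComponent]
      _ = _ := by
        rw [Finset.mul_sum, map_sum]
        exact Finset.sum_congr rfl fun i _ => h1 i
  rw [h2]
  by_cases hk : k ≤ m
  · rw [if_pos hk, Finset.sum_eq_single (m - k)]
    · rw [if_pos (by omega)]
    · intro i _ hi
      rw [if_neg (by omega)]
    · intro hi
      rw [Finset.mem_range, not_lt] at hi
      rw [homogeneousComponent_eq_zero _ _ (by omega), mul_zero, ite_self]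
  · rw [if_neg hk]
    apply Finset.sum_eq_zero
    intro i _
    rw [if_neg (by omega)]

/-- the dimension formula on a finite-dimensional subspace -/
theorem dim_map {V V' : Type*} [AddCommGroup V] [Module K V] [AddCommGroup V'] [Module K V']
    (g : V →ₗ[K] V') (W : Submodule K V) [Module.Finite K W] :
    Module.finrank K (W.map g) + Module.finrank K (W ⊓ LinearMap.ker g : Submodule K V) =
      Module.finrank K W := by
  have h := (g.domRestrict W).finrank_range_add_finrank_ker
  rw [LinearMap.range_domRestrict] at h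
  have h2 : Module.finrank K (LinearMap.ker (g.domRestrict W)) =
      Module.finrank K (W ⊓ LinearMap.ker g : Submodule K V) := by
    rw [LinearMap.ker_domRestrict, ← Submodule.finrank_map_subtype_eq,
      Submodule.map_comap_subtype]
  rw [← h2]
  exact h

/-- a member of `I + (f)`, in degree `e` -/
theorem mem_comp {d : ℕ} {I : Ideal (MvPolynomial (Fin n) K)} (hI : Hml I)
    {f : MvPolynomial (Fin n) K} (hf1 : f.IsHomogeneous d) {p : MvPolynomial (Fin n) K}
    (hp : p ∈ I ⊔ Ideal.span {f}) (e : ℕ) :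
    ∃ q ∈ I, ∃ b : MvPolynomial (Fin n) K, (b.IsHomogeneous (e - d)) ∧
      homogeneousComponent e p = q + if d ≤ e then f * b else 0 := by
  obtain ⟨i, hi, y, hy, rfl⟩ := Submodule.mem_sup.1 hp
  obtain ⟨c, rfl⟩ := Ideal.mem_span_singleton'.1 hy
  refine ⟨homogeneousComponent e i, hI i hi e, homogeneousComponent (e - d) c,
    homogeneousComponent_isHomogeneous _ _, ?_⟩
  rw [map_add, mul_comm c f, hc_mul hf1]

end HilbAAux

open HilbAAux

theorem finrank_hom (t : ℕ) : Module.finrank K (homogeneousSubmodule (Fin n) K t) =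
    Nat.card {a : Fin n → ℕ // ∑ j, a j = t} := by
  classical
  have hfin : Finite ({d | d.degree = t} : Set (Fin n →₀ ℕ)) := by
    have h := finite_hom (K := ℚ) (n := n) t
    rw [homogeneousSubmodule_eq_finsupp_supported] at h
    have e := AddMonoidAlgebra.supportedEquivFinsupp (S := ℚ) (R := ℚ)
      ({d | d.degree = t} : Set (Fin n →₀ ℕ))
    have h2 : Module.Finite ℚ (({d | d.degree = t} : Set (Fin n →₀ ℕ)) →₀ ℚ) :=
      Module.Finite.equiv e
    exact Module.Finite.finite_basis (Finsupp.basisSingleOne (R := ℚ))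
  have := Fintype.ofFinite ({d | d.degree = t} : Set (Fin n →₀ ℕ))
  rw [homogeneousSubmodule_eq_finsupp_supported,
    LinearEquiv.finrank_eq (AddMonoidAlgebra.supportedEquivFinsupp (S := K) (R := K)
      ({d | d.degree = t} : Set (Fin n →₀ ℕ))), Module.finrank_finsupp_self,
    ← Nat.card_eq_fintype_card]
  exact Nat.card_congr (expEquiv n t)

/-- With `J = I + (f)`: `J_{t+d} = I_{t+d} + f K[x]_t` and `f b ∈ I ↔ b ∈ I`, so
`dim J_{t+d} = dim I_{t+d} + dim K[x]_t - dim I_t`. -/
theorem hf_add {d : ℕ} (I : Ideal (MvPolynomial (Fin n) K)) (hI : Hml I)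
    (f : MvPolynomial (Fin n) K) (hf1 : f.IsHomogeneous d) (hreg : ∀ b, f * b ∈ I → b ∈ I)
    (t : ℕ) : hf (I ⊔ Ideal.span {f}) (t + d) + hf I t = hf I (t + d) := by
  have f1 := finite_hom (K := K) (n := n) t
  have f2 := finite_hom (K := K) (n := n) (t + d)
  have f3 : Module.Finite K (Ideg (I ⊔ Ideal.span {f}) (t + d)) :=
    Submodule.finiteDimensional_of_le (inf_le_right : _ ≤ homogeneousSubmodule (Fin n) K (t + d))
  -- first dimension count
  have h1 := dim_map (Submodule.mkQ (I.restrictScalars K)) (Ideg (I ⊔ Ideal.span {f}) (t + d))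
  have h2 := dim_map ((Submodule.mkQ (I.restrictScalars K)).comp (LinearMap.mulLeft K f))
    (homogeneousSubmodule (Fin n) K t)
  have e1 : (Ideg (I ⊔ Ideal.span {f}) (t + d) ⊓
      LinearMap.ker (Submodule.mkQ (I.restrictScalars K)) :
        Submodule K (MvPolynomial (Fin n) K)) = Ideg I (t + d) := by
    rw [Submodule.ker_mkQ]
    ext p
    simp only [Ideg, Submodule.mem_inf, Submodule.restrictScalars_mem]
    constructor
    · rintro ⟨⟨_, h⟩, h'⟩
      exact ⟨h', h⟩
    · rintro ⟨h, h'⟩
      exact ⟨⟨(le_sup_left : I ≤ I ⊔ Ideal.span {f}) h, h'⟩, h⟩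
  have e2 : (homogeneousSubmodule (Fin n) K t ⊓
      LinearMap.ker ((Submodule.mkQ (I.restrictScalars K)).comp (LinearMap.mulLeft K f)) :
        Submodule K (MvPolynomial (Fin n) K)) = Ideg I t := by
    rw [LinearMap.ker_comp, Submodule.ker_mkQ]
    ext p
    simp only [Ideg, Submodule.mem_inf, Submodule.restrictScalars_mem, Submodule.mem_comap,
      LinearMap.mulLeft_apply]
    constructor
    · rintro ⟨h, h'⟩
      exact ⟨hreg p h', h⟩
    · rintro ⟨h, h'⟩
      exact ⟨h', I.mul_mem_left f h⟩
  have e3 : (Ideg (I ⊔ Ideal.span {f}) (t + d)).map (Submodule.mkQ (I.restrictScalars K)) =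
      (homogeneousSubmodule (Fin n) K t).map
        ((Submodule.mkQ (I.restrictScalars K)).comp (LinearMap.mulLeft K f)) := by
    ext z
    simp only [Submodule.mem_map]
    constructor
    · rintro ⟨p, hp, rfl⟩
      simp only [Ideg, Submodule.mem_inf, Submodule.restrictScalars_mem] at hp
      obtain ⟨q, hq, b, hb, he⟩ := mem_comp hI hf1 hp.1 (t + d)
      rw [homogeneousComponent_of_mem hp.2, if_pos rfl, if_pos (by omega)] at he
      rw [Nat.add_sub_cancel] at hb
      refine ⟨b, hb, ?_⟩
      rw [LinearMap.comp_apply, LinearMap.mulLeft_apply, he, map_add, eq_comm, add_eq_right,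
        Submodule.mkQ_apply, Submodule.Quotient.mk_eq_zero]
      exact hq
    · rintro ⟨b, hb, rfl⟩
      refine ⟨f * b, ?_, rfl⟩
      simp only [Ideg, Submodule.mem_inf, Submodule.restrictScalars_mem]
      refine ⟨(le_sup_right : _ ≤ I ⊔ Ideal.span {f})
        (Ideal.mul_mem_right _ _ (Ideal.mem_span_singleton_self f)), ?_⟩
      have h := hf1.mul hb
      rw [add_comm] at h
      exact h
  rw [e1] at h1
  rw [e2, ← e3] at h2
  have h3 : Module.finrank K (Ideg (I ⊔ Ideal.span {f}) (t + d)) ≤
      Module.finrank K (homogeneousSubmodule (Fin n) K (t + d)) :=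
    Submodule.finrank_mono inf_le_right
  simp only [hf]
  omega

/-- `J_t = I_t` for `t < d`. -/
theorem hf_low {d : ℕ} (I : Ideal (MvPolynomial (Fin n) K)) (hI : Hml I)
    (f : MvPolynomial (Fin n) K) (hf1 : f.IsHomogeneous d) (t : ℕ) (ht : t < d) :
    hf (I ⊔ Ideal.span {f}) t = hf I t := by
  have h : Ideg (I ⊔ Ideal.span {f}) t = Ideg I t := by
    ext p
    simp only [Ideg, Submodule.mem_inf, Submodule.restrictScalars_mem]
    constructor
    · rintro ⟨h, h'⟩
      refine ⟨?_, h'⟩
      obtain ⟨q, hq, b, hb, he⟩ := mem_comp hI hf1 h t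
      rw [homogeneousComponent_of_mem h', if_pos rfl, if_neg (by omega), add_zero] at he
      rw [he]
      exact hq
    · rintro ⟨h, h'⟩
      exact ⟨(le_sup_left : I ≤ I ⊔ Ideal.span {f}) h, h'⟩
  rw [hf, hf, h]

theorem hml_sup {d : ℕ} (I : Ideal (MvPolynomial (Fin n) K)) (hI : Hml I)
    (f : MvPolynomial (Fin n) K) (hf1 : f.IsHomogeneous d) : Hml (I ⊔ Ideal.span {f}) := by
  intro p hp e
  obtain ⟨q, hq, b, hb, he⟩ := mem_comp hI hf1 hp e
  rw [he]
  refine Ideal.add_mem _ ((le_sup_left : I ≤ I ⊔ Ideal.span {f}) hq) ?_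
  by_cases h : d ≤ e
  · rw [if_pos h]
    exact (le_sup_right : _ ≤ I ⊔ Ideal.span {f})
      (Ideal.mul_mem_right _ _ (Ideal.mem_span_singleton_self f))
  · rw [if_neg h]
    exact Ideal.zero_mem _

end Pool.Agent.Lib.Pf179e6
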