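import Pool.Agent.Lib.Pf179e6.HilbA

/-! The Hilbert function of a complete intersection of forms of degree `d`. -/

namespace Pool.Agent.Lib.Pf179e6

open MvPolynomial

variable {K : Type*} [Field K] {n : ℕ}

/-- number of the monomials of degree `t` in `n` variables whose first `r` exponents are `< d` -/
noncomputable def bx (n d r t : ℕ) : ℕ :=
  Nat.card {a : Fin n → ℕ // ∑ j, a j = t ∧ ∀ j : Fin n, (j : ℕ) < r → a j < d}

/-- the set counted by `bx` -/
def bxS (n d r t : ℕ) : Set (Fin n → ℕ) :=
  {a | ∑ j, a j = t ∧ ∀ j : Fin n, (j : ℕ) < r → a j < d}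

theorem bx_eq (n d r t : ℕ) : bx n d r t = (bxS n d r t).ncard :=
  Nat.card_coe_set_eq (bxS n d r t)

theorem le_of_sum {t : ℕ} {a : Fin n → ℕ} (h : ∑ j, a j = t) (j : Fin n) : a j ≤ t := by
  rw [← h]
  exact Finset.single_le_sum (f := a) (fun _ _ => Nat.zero_le _) (Finset.mem_univ j)

theorem bxS_finite (n d r t : ℕ) : (bxS n d r t).Finite := by
  refine (Set.finite_Icc (0 : Fin n → ℕ) (fun _ => t)).subset ?_
  intro a ha
  refine ⟨fun j => Nat.zero_le _, fun j => le_of_sum ha.1 j⟩

/-- split according to `a_r < d` or `a_r ≥ d`; in the second case subtract `d` from `a_r` -/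
theorem bx_add {d r : ℕ} (hr : r < n) (t : ℕ) :
    bx n d (r + 1) (t + d) + bx n d r t = bx n d r (t + d) := by
  classical
  set i0 : Fin n := ⟨r, hr⟩ with hi0
  let sh : (Fin n → ℕ) → (Fin n → ℕ) := fun a => a + Pi.single i0 d
  have hsh : Function.Injective sh := fun a b h => add_right_cancel h
  have hsum : ∀ a : Fin n → ℕ, ∑ j, sh a j = ∑ j, a j + d := by
    intro a
    simp only [sh, Pi.add_apply]
    rw [Finset.sum_add_distrib, Finset.sum_pi_single']
    simp
  have hU : bxS n d r (t + d) = bxS n d (r + 1) (t + d) ∪ sh '' bxS n d r t := by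
    ext a
    constructor
    · intro ha
      by_cases h : a i0 < d
      · refine Or.inl ⟨ha.1, fun j hj => ?_⟩
        rcases Nat.lt_or_ge (j : ℕ) r with hjr | hjr
        · exact ha.2 j hjr
        · have : j = i0 := by
            apply Fin.ext
            rw [hi0]
            simp only
            omega
          rw [this]
          exact h
      · right
        have hle : Pi.single i0 d ≤ a := by
          intro j
          by_cases hj : j = i0
          · subst hj
            rw [Pi.single_eq_same]
            exact not_lt.1 h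
          · rw [Pi.single_eq_of_ne hj]
            exact Nat.zero_le _
        have h1 : sh (a - Pi.single i0 d) = a := tsub_add_cancel_of_le hle
        refine ⟨a - Pi.single i0 d, ⟨?_, ?_⟩, h1⟩
        · have h2 := hsum (a - Pi.single i0 d)
          rw [h1, ha.1] at h2
          omega
        · intro j hj
          have h3 := ha.2 j hj
          have h4 : (a - Pi.single i0 d : Fin n → ℕ) j ≤ a j := Nat.sub_le _ _
          omega
    · rintro (ha | ⟨b, hb, rfl⟩)
      · exact ⟨ha.1, fun j hj => ha.2 j (by omega)⟩
      · refine ⟨by rw [hsum, hb.1], fun j hj => ?_⟩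
        have hj' : j ≠ i0 := by
          rintro rfl
          rw [hi0] at hj
          simp only at hj
          omega
        have h5 : sh b j = b j := by
          simp only [sh, Pi.add_apply, Pi.single_eq_of_ne hj', add_zero]
        rw [h5]
        exact hb.2 j hj
  have hD : Disjoint (bxS n d (r + 1) (t + d)) (sh '' bxS n d r t) := by
    rw [Set.disjoint_left]
    rintro a ha ⟨b, hb, rfl⟩
    have h1 := ha.2 i0 (by rw [hi0]; simp)
    have h2 : sh b i0 = b i0 + d := by
      simp only [sh, Pi.add_apply, Pi.single_eq_same]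
    omega
  rw [bx_eq, bx_eq, bx_eq, hU, Set.ncard_union_eq hD (bxS_finite _ _ _ _)
    ((bxS_finite _ _ _ _).image _), Set.ncard_image_of_injective _ hsh]

theorem bx_low {d r t : ℕ} (ht : t < d) : bx n d (r + 1) t = bx n d r t := by
  rw [bx_eq, bx_eq]
  congr 1
  ext a
  constructor
  · intro ha
    exact ⟨ha.1, fun j hj => ha.2 j (by omega)⟩
  · intro ha
    exact ⟨ha.1, fun j _ => lt_of_le_of_lt (le_of_sum ha.1 j) ht⟩

theorem hml_list {d : ℕ} (rs : List (MvPolynomial (Fin n) K))
    (hd : ∀ r ∈ rs, r.IsHomogeneous d) : Hml (Ideal.ofList rs) := by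
  induction rs using List.reverseRecOn with
  | nil =>
    intro p hp e
    rw [Ideal.ofList_nil, Ideal.mem_bot] at hp ⊢
    rw [hp, map_zero]
  | append_singleton rs r ih =>
    rw [Ideal.ofList_append, Ideal.ofList_singleton]
    exact hml_sup _ (ih fun s hs => hd s (List.mem_append_left _ hs)) r
      (hd r (List.mem_append_right _ (List.mem_singleton_self r)))

theorem hf_bot (t : ℕ) : hf (⊥ : Ideal (MvPolynomial (Fin n) K)) t =
    Module.finrank K (homogeneousSubmodule (Fin n) K t) := by
  have h : Ideg (⊥ : Ideal (MvPolynomial (Fin n) K)) t = ⊥ := by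
    rw [eq_bot_iff]
    intro p hp
    exact hp.1
  rw [hf, h, finrank_bot, Nat.sub_zero]

/-- Induction over the list from the end (as in `kex_list`). -/
theorem hf_list {d : ℕ} (hd1 : 1 ≤ d) (rs : List (MvPolynomial (Fin n) K))
    (hlen : rs.length ≤ n)
    (hd : ∀ r ∈ rs, r.IsHomogeneous d)
    (hreg : RingTheory.Sequence.IsWeaklyRegular (MvPolynomial (Fin n) K) rs) (t : ℕ) :
    hf (Ideal.ofList rs) t = bx n d rs.length t := by
  induction rs using List.reverseRecOn generalizing t with
  | nil =>
    rw [Ideal.ofList_nil, hf_bot, finrank_hom, bx]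
    refine Nat.card_congr (Equiv.subtypeEquivRight fun a => ?_)
    constructor
    · intro h
      exact ⟨h, fun j hj => absurd hj (Nat.not_lt_zero _)⟩
    · intro h
      exact h.1
  | append_singleton rs r ih =>
    have h1 := (RingTheory.Sequence.isWeaklyRegular_append_iff _ rs [r]).1 hreg
    have hd' : ∀ r ∈ rs, r.IsHomogeneous d := fun s hs => hd s (List.mem_append_left _ hs)
    have hr1 : r.IsHomogeneous d :=
      hd r (List.mem_append_right _ (List.mem_singleton_self r))
    have h2 := (RingTheory.Sequence.isWeaklyRegular_singleton_iff _ r).1 h1.2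
    rw [List.length_append, List.length_singleton] at hlen ⊢
    have ih' := ih (by omega) hd' h1.1
    rw [Ideal.ofList_append, Ideal.ofList_singleton]
    rcases Nat.lt_or_ge t d with ht | ht
    · rw [hf_low _ (hml_list rs hd') r hr1 t ht, bx_low ht, ih' t]
    · obtain ⟨s, rfl⟩ : ∃ s, t = s + d := ⟨t - d, by omega⟩
      have h3 := hf_add (Ideal.ofList rs) (hml_list rs hd') r hr1 (by
        intro b hb
        have h3 := (isSMulRegular_quotient_iff_mem_of_smul_mem _ r).1 h2 b
        rw [smul_eq_mul, smul_eq_mul, Ideal.mul_top] at h3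
        exact h3 hb) s
      have h4 := bx_add (n := n) (d := d) (r := rs.length) (by omega) s
      rw [ih' s, ih' (s + d)] at h3
      omega

theorem sum_le_top {d : ℕ} {a : Fin n → ℕ} (h : ∀ j : Fin n, a j < d) :
    ∑ j, a j ≤ n * (d - 1) := by
  have h2 : ∑ j, a j ≤ ∑ _j : Fin n, (d - 1) :=
    Finset.sum_le_sum fun j _ => by
      have := h j
      omega
  rwa [Finset.sum_const, Finset.card_univ, Fintype.card_fin, smul_eq_mul] at h2

theorem bx_top_zero {d t : ℕ} (hd1 : 1 ≤ d) (ht : n * (d - 1) < t) : bx n d n t = 0 := by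
  rw [bx_eq, Set.ncard_eq_zero (bxS_finite _ _ _ _), Set.eq_empty_iff_forall_notMem]
  intro a ha
  have h1 := sum_le_top (d := d) (a := a) (fun j => ha.2 j j.2)
  rw [ha.1] at h1
  omega

theorem bx_top_one {d : ℕ} (hd1 : 1 ≤ d) : bx n d n (n * (d - 1)) = 1 := by
  rw [bx_eq, Set.ncard_eq_one]
  refine ⟨fun _ => d - 1, ?_⟩
  ext a
  rw [Set.mem_singleton_iff]
  constructor
  · intro ha
    have h1 : ∀ j ∈ (Finset.univ : Finset (Fin n)), a j ≤ d - 1 := fun j _ => by
      have := ha.2 j j.2
      omega
    have h2 : ∑ j, a j = ∑ _j : Fin n, (d - 1) := by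
      rw [ha.1, Finset.sum_const, Finset.card_univ, Fintype.card_fin, smul_eq_mul]
    have h3 := (Finset.sum_eq_sum_iff_of_le h1).1 h2
    funext j
    exact h3 j (Finset.mem_univ j)
  · rintro rfl
    refine ⟨?_, fun j _ => Nat.sub_lt hd1 one_pos⟩
    rw [Finset.sum_const, Finset.card_univ, Fintype.card_fin, smul_eq_mul]

theorem bx_sub_top {d : ℕ} (hd : 2 ≤ d) (hn : 1 ≤ n) : bx n d n (n * (d - 1) - 1) = n := by
  classical
  let g : Fin n → (Fin n → ℕ) := fun i => Function.update (fun _ => d - 1) i (d - 2)
  have hg : Function.Injective g := by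
    intro i j hij
    by_contra hne
    have h1 := congrFun hij i
    simp only [g, Function.update_self, Function.update_of_ne hne] at h1
    omega
  have hnd : 1 ≤ n * (d - 1) := Nat.mul_pos hn (by omega)
  have hgsum : ∀ i, ∑ j, g i j = n * (d - 1) - 1 := by
    intro i
    have h1 : ∑ j, g i j + 1 = ∑ _j : Fin n, (d - 1) := by
      rw [← Finset.add_sum_erase _ _ (Finset.mem_univ i),
        ← Finset.add_sum_erase (Finset.univ : Finset (Fin n)) (fun _ => d - 1)
          (Finset.mem_univ i)]
      have h2 : ∑ j ∈ Finset.univ.erase i, g i j = ∑ _j ∈ Finset.univ.erase i, (d - 1) := by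
        refine Finset.sum_congr rfl fun j hj => ?_
        have := Finset.ne_of_mem_erase hj
        simp only [g, Function.update_of_ne this]
      have h3 : g i i = d - 2 := by simp only [g, Function.update_self]
      rw [h2, h3]
      omega
    rw [Finset.sum_const, Finset.card_univ, Fintype.card_fin, smul_eq_mul] at h1
    omega
  have hS : bxS n d n (n * (d - 1) - 1) = Set.range g := by
    ext a
    constructor
    · intro ha
      have hlt : ∀ j, a j < d := fun j => ha.2 j j.2
      -- some entry is smaller
      have hex : ∃ i, a i ≠ d - 1 := by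
        by_contra hcon
        push Not at hcon
        have h1 : ∑ j, a j = ∑ _j : Fin n, (d - 1) := Finset.sum_congr rfl fun j _ => hcon j
        rw [ha.1, Finset.sum_const, Finset.card_univ, Fintype.card_fin, smul_eq_mul] at h1
        omega
      obtain ⟨i, hi⟩ := hex
      have hai : a i ≤ d - 2 := by
        have := hlt i
        omega
      have hle : ∀ j ∈ (Finset.univ : Finset (Fin n)), a j ≤ g i j := by
        intro j _
        by_cases hj : j = i
        · subst hj
          simp only [g, Function.update_self]
          exact hai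
        · simp only [g, Function.update_of_ne hj]
          have := hlt j
          omega
      have h2 : ∑ j, a j = ∑ j, g i j := by rw [ha.1, hgsum]
      have h3 := (Finset.sum_eq_sum_iff_of_le hle).1 h2
      refine ⟨i, ?_⟩
      funext j
      exact (h3 j (Finset.mem_univ j)).symm
    · rintro ⟨i, rfl⟩
      refine ⟨hgsum i, fun j _ => ?_⟩
      by_cases hj : j = i
      · subst hj
        simp only [g, Function.update_self]
        omega
      · simp only [g, Function.update_of_ne hj]
        omega
  rw [bx_eq, hS, ← Set.image_univ, Set.ncard_image_of_injective _ hg, Set.ncard_univ,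
    Nat.card_eq_fintype_card, Fintype.card_fin]

end Pool.Agent.Lib.Pf179e6
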