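import Pool.Agent.Lib.Pf179e6.KosDef

/-! Basic properties of the Koszul matrices and exactness for regular sequences. -/

namespace Pool.Agent.Lib.Pf179e6

open Matrix

variable {R : Type*} [CommRing R]

namespace KosAux

/-- first index -/
def il {u : ℕ} (J : KI u) : KI (u + 1) := (Sum.inl J : KI u ⊕ KI u)

/-- second index -/
def ir {u : ℕ} (J : KI u) : KI (u + 1) := (Sum.inr J : KI u ⊕ KI u)

theorem cases_KI {u : ℕ} {P : KI (u + 1) → Prop} (h1 : ∀ J, P (il J)) (h2 : ∀ J, P (ir J))
    (J : KI (u + 1)) : P J := by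
  rcases (show KI u ⊕ KI u from J) with J | J
  · exact h1 J
  · exact h2 J

/-- a pair of vectors -/
def pr {u : ℕ} (a b : KI u → R) : KI (u + 1) → R := (Sum.elim a b : KI u ⊕ KI u → R)

theorem pr_il {u : ℕ} (a b : KI u → R) (J : KI u) : pr a b (il J) = a J := rfl

theorem pr_ir {u : ℕ} (a b : KI u → R) (J : KI u) : pr a b (ir J) = b J := rfl

theorem eq_pr {u : ℕ} (a : KI (u + 1) → R) : a = pr (fun J => a (il J)) (fun J => a (ir J)) := by
  funext J
  exact cases_KI (P := fun J => a J = pr (fun J => a (il J)) (fun J => a (ir J)) J)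
    (fun _ => rfl) (fun _ => rfl) J

theorem ksz_il {u : ℕ} (J : KI u) : ksz (u + 1) (il J) = ksz u J := rfl

theorem ksz_ir {u : ℕ} (J : KI u) : ksz (u + 1) (ir J) = ksz u J + 1 := rfl

theorem KD_pr (x : ℕ → R) (u : ℕ) (a b : KI u → R) :
    KD x (u + 1) *ᵥ pr a b = pr (KD x u *ᵥ a + x u • b) (-(KD x u *ᵥ b)) := by
  have h : (Matrix.fromBlocks (KD x u) (Matrix.scalar (KI u) (x u)) 0 (-(KD x u)) :
      Matrix (KI u ⊕ KI u) (KI u ⊕ KI u) R) *ᵥ (Sum.elim a b) =
      Sum.elim (KD x u *ᵥ a + x u • b) (-(KD x u *ᵥ b)) := by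
    rw [Matrix.fromBlocks_mulVec]
    have e1 : (Sum.elim a b : KI u ⊕ KI u → R) ∘ Sum.inl = a := rfl
    have e2 : (Sum.elim a b : KI u ⊕ KI u → R) ∘ Sum.inr = b := rfl
    rw [e1, e2, Matrix.zero_mulVec, zero_add, Matrix.neg_mulVec]
    congr 2
    funext J
    rw [Matrix.scalar_apply, Matrix.mulVec_diagonal]
    simp
  exact h

theorem KSupp_pr {u j : ℕ} {a b : KI u → R} :
    KSupp (u + 1) (j + 1) (pr a b) ↔ KSupp u (j + 1) a ∧ KSupp u j b := by
  constructor
  · intro h
    refine ⟨fun J hJ => h (il J) hJ, fun J hJ => h (ir J) ?_⟩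
    rw [ksz_ir]
    omega
  · rintro ⟨h1, h2⟩
    refine cases_KI (fun J hJ => ?_) (fun J hJ => ?_)
    · exact h1 J hJ
    · rw [ksz_ir] at hJ
      exact h2 J (by omega)

theorem KSupp_pr_zero {u : ℕ} {a b : KI u → R} :
    KSupp (u + 1) 0 (pr a b) ↔ KSupp u 0 a ∧ b = 0 := by
  constructor
  · intro h
    refine ⟨fun J hJ => h (il J) hJ, funext fun J => h (ir J) ?_⟩
    rw [ksz_ir]
    omega
  · rintro ⟨h1, h2⟩
    refine cases_KI (fun J hJ => ?_) (fun J hJ => ?_)
    · exact h1 J hJ
    · rw [pr_ir, h2]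
      rfl

theorem KSupp.add {u j : ℕ} {a b : KI u → R} (ha : KSupp u j a) (hb : KSupp u j b) :
    KSupp u j (a + b) := fun J hJ => by
  rw [Pi.add_apply, ha J hJ, hb J hJ, add_zero]

theorem KSupp.smul {u j : ℕ} {a : KI u → R} (c : R) (ha : KSupp u j a) :
    KSupp u j (c • a) := fun J hJ => by
  rw [Pi.smul_apply, ha J hJ, smul_zero]

theorem KSupp.neg {u j : ℕ} {a : KI u → R} (ha : KSupp u j a) :
    KSupp u j (-a) := fun J hJ => by
  rw [Pi.neg_apply, ha J hJ, neg_zero]

theorem KSupp.zero {u j : ℕ} : KSupp u j (0 : KI u → R) := fun _ _ => rfl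

theorem KD_zero (x : ℕ → R) (a : KI 0 → R) : KD x 0 *ᵥ a = 0 := by
  have : KD x 0 = 0 := rfl
  rw [this, Matrix.zero_mulVec]

end KosAux

open KosAux

/-- the differential squares to zero (`fromBlocks_multiply`, induction on `u`) -/
theorem KD_sq (x : ℕ → R) (u : ℕ) (a : KI u → R) : KD x u *ᵥ (KD x u *ᵥ a) = 0 := by
  induction u with
  | zero => rw [KD_zero]
  | succ u ih =>
    rw [eq_pr a, KD_pr, KD_pr, Matrix.mulVec_add, Matrix.mulVec_smul, Matrix.mulVec_neg, ih, ih]
    rw [smul_neg, zero_add, add_neg_cancel, neg_zero, neg_zero]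
    exact (eq_pr (0 : KI (u + 1) → R)).symm

/-- the differential kills the size zero part -/
theorem KosAux.KD_KSupp_zero' (x : ℕ → R) (u : ℕ) (a : KI u → R) (ha : KSupp u 0 a) :
    KD x u *ᵥ a = 0 := by
  induction u with
  | zero => rw [KD_zero]
  | succ u ih =>
    rw [eq_pr a] at ha ⊢
    obtain ⟨h1, h2⟩ := KSupp_pr_zero.1 ha
    rw [KD_pr, ih _ h1, h2, Matrix.mulVec_zero, smul_zero, add_zero, neg_zero]
    exact (eq_pr (0 : KI (u + 1) → R)).symm

/-- the differential lowers the size by one -/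
theorem KSupp_KD (x : ℕ → R) (u j : ℕ) (a : KI u → R) (ha : KSupp u (j + 1) a) :
    KSupp u j (KD x u *ᵥ a) := by
  induction u generalizing j with
  | zero =>
    rw [KD_zero]
    exact KSupp.zero
  | succ u ih =>
    rw [eq_pr a] at ha ⊢
    obtain ⟨h1, h2⟩ := KSupp_pr.1 ha
    rw [KD_pr]
    cases j with
    | zero =>
      refine KSupp_pr_zero.2 ⟨KSupp.add (ih 0 _ h1) (KSupp.smul _ h2), ?_⟩
      rw [KD_KSupp_zero' x u _ h2, neg_zero]
    | succ j =>
      exact KSupp_pr.2 ⟨KSupp.add (ih _ _ h1) (KSupp.smul _ h2), KSupp.neg (ih _ _ h2)⟩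

/-- the differential kills the size zero part -/
theorem KD_KSupp_zero (x : ℕ → R) (u : ℕ) (a : KI u → R) (ha : KSupp u 0 a) :
    KD x u *ᵥ a = 0 := KD_KSupp_zero' x u a ha

/-- the entries of the differential are `0`, `x v` or `- x v` with `v < u` -/
theorem KD_entry (x : ℕ → R) (u : ℕ) (J J' : KI u) :
    KD x u J J' = 0 ∨ ∃ v < u, KD x u J J' = x v ∨ KD x u J J' = - x v := by
  induction u with
  | zero => exact Or.inl rfl
  | succ u ih =>
    revert J'
    refine cases_KI (P := fun J => ∀ J', KD x (u + 1) J J' = 0 ∨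
      ∃ v < u + 1, KD x (u + 1) J J' = x v ∨ KD x (u + 1) J J' = - x v)
      (fun J => ?_) (fun J => ?_) J
    · refine cases_KI (fun J' => ?_) (fun J' => ?_)
      · have e : KD x (u + 1) (il J) (il J') = KD x u J J' := rfl
        rw [e]
        rcases ih J J' with h | ⟨v, hv, h⟩
        · exact Or.inl h
        · exact Or.inr ⟨v, by omega, h⟩
      · have e : KD x (u + 1) (il J) (ir J') = Matrix.scalar (KI u) (x u) J J' := rfl
        rw [e, Matrix.scalar_apply, Matrix.diagonal_apply]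
        by_cases h : J = J'
        · rw [if_pos h]
          exact Or.inr ⟨u, by omega, Or.inl rfl⟩
        · rw [if_neg h]
          exact Or.inl rfl
    · refine cases_KI (fun J' => ?_) (fun J' => ?_)
      · exact Or.inl rfl
      · have e : KD x (u + 1) (ir J) (ir J') = - KD x u J J' := rfl
        rw [e]
        rcases ih J J' with h | ⟨v, hv, h⟩
        · rw [h, neg_zero]
          exact Or.inl rfl
        · refine Or.inr ⟨v, by omega, ?_⟩
          rcases h with h | h
          · rw [h]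
            exact Or.inr rfl
          · rw [h, neg_neg]
            exact Or.inl rfl

/-- there is an index of size `u` and none of larger size -/
theorem ksz_le (u : ℕ) (J : KI u) : ksz u J ≤ u := by
  induction u with
  | zero => exact le_rfl
  | succ u ih =>
    refine cases_KI (P := fun J => ksz (u + 1) J ≤ u + 1) (fun J => ?_) (fun J => ?_) J
    · rw [ksz_il]
      exact (ih J).trans (Nat.le_succ u)
    · rw [ksz_ir]
      exact Nat.succ_le_succ (ih J)

theorem exists_ksz (u : ℕ) : ∃ J : KI u, ksz u J = u := by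
  induction u with
  | zero => exact ⟨(Unit.unit : Unit), rfl⟩
  | succ u ih =>
    obtain ⟨J, hJ⟩ := ih
    refine ⟨ir J, ?_⟩
    rw [ksz_ir, hJ]

/-- the image is in the ideal -/
theorem KosAux.KD_mem (x : ℕ → R) (u : ℕ) (a : KI u → R) (J : KI u) :
    (KD x u *ᵥ a) J ∈ Ideal.span (x '' {i | i < u}) := by
  rw [Matrix.mulVec, dotProduct]
  refine Ideal.sum_mem _ fun J' _ => Ideal.mul_mem_right _ _ ?_
  have hmem : ∀ v < u, x v ∈ Ideal.span (x '' {i | i < u}) := fun v hv =>
    Ideal.subset_span ⟨v, hv, rfl⟩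
  rcases KD_entry x u J J' with h | ⟨v, hv, h | h⟩
  · rw [h]
    exact Ideal.zero_mem _
  · rw [h]
    exact hmem v hv
  · rw [h]
    exact (Ideal.neg_mem_iff _).2 (hmem v hv)

/-- a vector of size zero with entries in the ideal is in the image -/
theorem KosAux.zero_im (x : ℕ → R) (u : ℕ) (b : KI u → R) (hb : KSupp u 0 b)
    (h : ∀ J, b J ∈ Ideal.span (x '' {i | i < u})) :
    ∃ β : KI u → R, KSupp u 1 β ∧ KD x u *ᵥ β = b := by
  classical
  induction u with
  | zero =>
    refine ⟨0, KSupp.zero, ?_⟩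
    rw [Matrix.mulVec_zero]
    funext J
    have h1 := h J
    have e : {i : ℕ | i < 0} = ∅ := by
      ext i
      simp
    rw [e, Set.image_empty, Ideal.span_empty, Submodule.mem_bot] at h1
    exact h1.symm
  | succ u ih =>
    rw [eq_pr b] at hb h ⊢
    obtain ⟨h1, h2⟩ := KSupp_pr_zero.1 hb
    have e : x '' {i : ℕ | i < u + 1} = insert (x u) (x '' {i : ℕ | i < u}) := by
      rw [← Set.image_insert_eq]
      congr 1
      ext i
      simp only [Set.mem_setOf_eq, Set.mem_insert_iff]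
      omega
    have h3 : ∀ J : KI u, ∃ r c : R, c ∈ Ideal.span (x '' {i : ℕ | i < u}) ∧
        b (il J) = c + x u * r := by
      intro J
      have h4 := h (il J)
      rw [pr_il, e, Ideal.mem_span_insert] at h4
      obtain ⟨r, c, hc, h5⟩ := h4
      exact ⟨r, c, hc, by rw [h5]; ring⟩
    choose r c hc hrc using h3
    obtain ⟨β, hβ, hβ'⟩ := ih (fun J => if ksz u J = 0 then c J else 0)
      (fun J hJ => if_neg hJ) (fun J => by
        beta_reduce
        split_ifs
        · exact hc J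
        · exact Ideal.zero_mem _)
    have hr : KSupp u 0 (fun J => if ksz u J = 0 then r J else 0) := fun J hJ => if_neg hJ
    refine ⟨pr β (fun J => if ksz u J = 0 then r J else 0), KSupp_pr.2 ⟨hβ, hr⟩, ?_⟩
    rw [KD_pr, hβ', KD_KSupp_zero' x u _ hr, neg_zero, h2]
    congr 1
    funext J
    rw [Pi.add_apply, Pi.smul_apply, smul_eq_mul]
    beta_reduce
    by_cases hJ : ksz u J = 0
    · rw [if_pos hJ, if_pos hJ, hrc]
    · rw [if_neg hJ, if_neg hJ, mul_zero, add_zero]
      exact (h1 J hJ).symm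

/-- Exactness in positive degree if `x 0, .., x (u-1)` is a regular sequence.
Proof: induction on `u`.  Write a vector over `KI (u+1) = KI u ⊕ KI u` as `(a, b)`, `a` of size
`j+1`, `b` of size `j`.  The hypothesis says `∂ a + x b = 0`, `∂ b = 0` (`x = x u`).
Claim `b = ∂ β` with `β` of size `j+1`: if `j ≥ 1` by induction; if `j = 0`, `b` is concentrated
in the index of size `0`, `x b = - ∂ a` has entry in the ideal of `x 0, .., x (u-1)`, so its entry
is in that ideal by regularity and `b = ∂ β` (sublemma: a size zero vector is in the image iff its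
entry is in the ideal, induction on `u`).  Then `∂ (a + x β) = 0`, so `a + x β = ∂ α` by induction
(size `j + 1 ≥ 1`) and `∂ (α, -β) = (∂ α - x β, ∂ β) = (a, b)`. -/
theorem kos_exact (x : ℕ → R) (u : ℕ)
    (hx : ∀ v < u, ∀ b : R, x v * b ∈ Ideal.span (x '' {i | i < v}) →
      b ∈ Ideal.span (x '' {i | i < v}))
    (j : ℕ) (a : KI u → R) (ha : KSupp u (j + 1) a) (h0 : KD x u *ᵥ a = 0) :
    ∃ θ : KI u → R, KSupp u (j + 2) θ ∧ KD x u *ᵥ θ = a := by
  induction u generalizing j with
  | zero =>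
    refine ⟨0, KSupp.zero, ?_⟩
    rw [Matrix.mulVec_zero]
    funext J
    exact (ha J (by
      have : ksz 0 J = 0 := rfl
      omega)).symm
  | succ u ih =>
    have hx' : ∀ v < u, ∀ b : R, x v * b ∈ Ideal.span (x '' {i | i < v}) →
      b ∈ Ideal.span (x '' {i | i < v}) := fun v hv => hx v (by omega)
    rw [eq_pr a] at ha h0 ⊢
    obtain ⟨h1, h2⟩ := KSupp_pr.1 ha
    rw [KD_pr] at h0
    have h3 : KD x u *ᵥ (fun J => a (il J)) + x u • (fun J => a (ir J)) = 0 := by
      funext J
      exact congrFun h0 (il J)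
    have h4 : KD x u *ᵥ (fun J => a (ir J)) = 0 := by
      funext J
      have := congrFun h0 (ir J)
      rw [pr_ir, Pi.neg_apply] at this
      exact neg_eq_zero.1 this
    have h5 : ∃ β : KI u → R, KSupp u (j + 1) β ∧ KD x u *ᵥ β = fun J => a (ir J) := by
      cases j with
      | zero =>
        refine zero_im x u _ h2 fun J => hx u (by omega) _ ?_
        have h6 := congrFun h3 J
        rw [Pi.add_apply, Pi.smul_apply, smul_eq_mul, Pi.zero_apply] at h6
        have h7 : x u * a (ir J) = -(KD x u *ᵥ fun J => a (il J)) J :=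
          eq_neg_of_add_eq_zero_right h6
        rw [h7]
        exact (Ideal.neg_mem_iff _).2 (KD_mem x u _ J)
      | succ j => exact ih hx' j _ h2 h4
    obtain ⟨β, hβ, hβ'⟩ := h5
    obtain ⟨α, hα, hα'⟩ := ih hx' j ((fun J => a (il J)) + x u • β)
      (KSupp.add h1 (KSupp.smul _ hβ)) (by
        rw [Matrix.mulVec_add, Matrix.mulVec_smul, hβ', h3])
    refine ⟨pr α (-β), KSupp_pr.2 ⟨hα, KSupp.neg hβ⟩, ?_⟩
    rw [KD_pr, hα', Matrix.mulVec_neg, hβ', neg_neg, smul_neg, add_neg_cancel_right]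

end Pool.Agent.Lib.Pf179e6
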