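import Pool.Agent.Lib.Pf179e6.KosA

/-! Koszul homology modulo a sequence of forms of degree `d` lives in degrees `≥ j d`. -/

namespace Pool.Agent.Lib.Pf179e6

open Matrix

variable {F : Type*} [Field F] {n : ℕ}

namespace KosBAux

open MvPolynomial

/-- components of a product with a form -/
theorem hc_mul {p : MvPolynomial (Fin n) F} {k : ℕ} (hp : p.IsHomogeneous k)
    (q : MvPolynomial (Fin n) F) (m : ℕ) :
    homogeneousComponent m (p * q) = if k ≤ m then p * homogeneousComponent (m - k) q else 0 := by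
  have h1 : ∀ i, homogeneousComponent m (p * homogeneousComponent i q) =
      if m = k + i then p * homogeneousComponent i q else 0 := fun i =>
    homogeneousComponent_of_mem (hp.mul (homogeneousComponent_isHomogeneous i q))
  have h2 : homogeneousComponent m (p * q) = ∑ i ∈ Finset.range (q.totalDegree + 1),
      if m = k + i then p * homogeneousComponent i q else 0 := by
    calc homogeneousComponent m (p * q)
        = homogeneousComponent m (p * ∑ i ∈ Finset.range (q.totalDegree + 1),
            homogeneousComponent i q) := by rw [sum_homogeneousComponent]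
      _ = _ := by
        rw [Finset.mul_sum, map_sum]
        exact Finset.sum_congr rfl fun i _ => h1 i
  rw [h2]
  by_cases hk : k ≤ m
  · rw [if_pos hk, Finset.sum_eq_single (m - k)]
    · rw [if_pos (by omega)]
    · intro i _ hi
      rw [if_neg (by omega)]
    · intro hi
      rw [Finset.mem_range, not_lt] at hi
      rw [homogeneousComponent_eq_zero _ _ (by omega), mul_zero, ite_self]
  · rw [if_neg hk]
    apply Finset.sum_eq_zero
    intro i _
    rw [if_neg (by omega)]

theorem entry_hom (x : ℕ → MvPolynomial (Fin n) F) (u : ℕ) (hx1 : ∀ v < u, (x v).IsHomogeneous 1)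
    (J J' : KI u) : (KD x u J J').IsHomogeneous 1 := by
  rcases KD_entry x u J J' with h | ⟨v, hv, h | h⟩
  · rw [h]
    exact isHomogeneous_zero _ _ _
  · rw [h]
    exact hx1 v hv
  · rw [h]
    exact (hx1 v hv).neg

/-- components of the differential -/
theorem hc_KD (x : ℕ → MvPolynomial (Fin n) F) (u : ℕ) (hx1 : ∀ v < u, (x v).IsHomogeneous 1)
    (θ : KI u → MvPolynomial (Fin n) F) (m : ℕ) (J : KI u) :
    homogeneousComponent m ((KD x u *ᵥ θ) J) =
      if 1 ≤ m then (KD x u *ᵥ fun J' => homogeneousComponent (m - 1) (θ J')) J else 0 := by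
  simp only [Matrix.mulVec, dotProduct]
  rw [map_sum]
  by_cases hm : 1 ≤ m
  · rw [if_pos hm]
    refine Finset.sum_congr rfl fun J' _ => ?_
    rw [hc_mul (entry_hom x u hx1 J J'), if_pos hm]
  · rw [if_neg hm]
    refine Finset.sum_eq_zero fun J' _ => ?_
    rw [hc_mul (entry_hom x u hx1 J J'), if_neg hm]

theorem supp_of_hom {u j e : ℕ} {a : KI u → MvPolynomial (Fin n) F} (h : KHom u j e a) :
    KSupp u j a := fun J hJ => (h J).2 hJ

theorem hom_all {u j e : ℕ} {a : KI u → MvPolynomial (Fin n) F} (h : KHom u j e a) (J : KI u) :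
    (a J).IsHomogeneous e := by
  by_cases hJ : ksz u J = j
  · exact (h J).1 hJ
  · rw [(h J).2 hJ]
    exact isHomogeneous_zero _ _ _

theorem hom_of_supp {u j e : ℕ} {a : KI u → MvPolynomial (Fin n) F} (h : KSupp u j a)
    (h' : ∀ J, (a J).IsHomogeneous e) : KHom u j e a := fun J => ⟨fun _ => h' J, h J⟩

/-- the differential of a form -/
theorem hom_KD (x : ℕ → MvPolynomial (Fin n) F) (u : ℕ) (hx1 : ∀ v < u, (x v).IsHomogeneous 1)
    {j e : ℕ} {a : KI u → MvPolynomial (Fin n) F} (h : KHom u (j + 1) e a) :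
    KHom u j (e + 1) (KD x u *ᵥ a) := by
  refine hom_of_supp (KSupp_KD x u j a (supp_of_hom h)) fun J => ?_
  simp only [Matrix.mulVec, dotProduct]
  refine IsHomogeneous.sum _ _ _ fun J' _ => ?_
  have h1 := (entry_hom x u hx1 J J').mul (hom_all h J')
  rwa [add_comm] at h1

theorem comp_hom {u j : ℕ} {a : KI u → MvPolynomial (Fin n) F} (h : KSupp u j a) (e : ℕ) :
    KHom u j e fun J => homogeneousComponent e (a J) :=
  hom_of_supp (fun J hJ => by
    show homogeneousComponent e (a J) = 0
    rw [h J hJ, map_zero]) fun J => homogeneousComponent_isHomogeneous _ _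

theorem mem_KD (x : ℕ → MvPolynomial (Fin n) F) (u : ℕ) {I : Ideal (MvPolynomial (Fin n) F)}
    {a : KI u → MvPolynomial (Fin n) F} (h : ∀ J, a J ∈ I) (J : KI u) : (KD x u *ᵥ a) J ∈ I := by
  simp only [Matrix.mulVec, dotProduct]
  exact Ideal.sum_mem _ fun J' _ => I.mul_mem_left _ (h J')

/-- an ideal generated by forms -/
theorem ofList_hom (d : ℕ) (rs : List (MvPolynomial (Fin n) F)) (hd : ∀ r ∈ rs, r.IsHomogeneous d) :
    ∀ p ∈ Ideal.ofList rs, ∀ e, homogeneousComponent e p ∈ Ideal.ofList rs := by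
  intro p hp
  unfold Ideal.ofList at hp ⊢
  induction hp using Submodule.span_induction with
  | mem x hx =>
    intro e
    have h1 : homogeneousComponent e x = if e = d then x else 0 :=
      homogeneousComponent_of_mem (hd x hx)
    rw [h1]
    split_ifs
    · exact Ideal.subset_span hx
    · exact Ideal.zero_mem _
  | zero =>
    intro e
    rw [map_zero]
    exact Ideal.zero_mem _
  | add x y _ _ hx hy =>
    intro e
    rw [map_add]
    exact Ideal.add_mem _ (hx e) (hy e)
  | smul c x _ ih =>
    intro e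
    have h1 : c • x = ∑ i ∈ Finset.range (c.totalDegree + 1), homogeneousComponent i c * x := by
      rw [← Finset.sum_mul, sum_homogeneousComponent, smul_eq_mul]
    rw [h1, map_sum]
    refine Ideal.sum_mem _ fun i _ => ?_
    rw [hc_mul (homogeneousComponent_isHomogeneous i c)]
    split_ifs
    · exact Ideal.mul_mem_left _ _ (ih _)
    · exact Ideal.zero_mem _

end KosBAux

open KosBAux MvPolynomial in
/-- Start.  `e + j < j * d` forces `j ≥ 1`; membership in `⊥` means `= 0`; `kos_exact` gives
`θ'` with `KD x u *ᵥ θ' = a`; take the homogeneous component of degree `e - 1` of all entries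
(`0` if `e = 0`: then `a` is both of degree `0` and in positive degree). -/
theorem kex_bot (d : ℕ) (x : ℕ → MvPolynomial (Fin n) F) (u : ℕ)
    (hx1 : ∀ v < u, (x v).IsHomogeneous 1)
    (hx : ∀ v < u, ∀ b : MvPolynomial (Fin n) F, x v * b ∈ Ideal.span (x '' {i | i < v}) →
      b ∈ Ideal.span (x '' {i | i < v})) : KEx d x u ⊥ := by
  intro j e a ha h0 hlt
  obtain ⟨j, rfl⟩ : ∃ j', j = j' + 1 := by
    rcases j with _ | j
    · rw [zero_mul] at hlt
      omega
    · exact ⟨j, rfl⟩
  have h1 : KD x u *ᵥ a = 0 := funext fun J => (Ideal.mem_bot.1 (h0 J))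
  obtain ⟨θ', hθ1, hθ2⟩ := kos_exact x u hx j a (supp_of_hom ha) h1
  have hc : ∀ J, a J = homogeneousComponent e ((KD x u *ᵥ θ') J) := by
    intro J
    rw [hθ2, homogeneousComponent_eq_self (hom_all ha J)]
  rcases e with _ | e
  · refine ⟨0, fun e' he' => by omega, fun _ => rfl, fun J => ?_⟩
    rw [Matrix.mulVec_zero, hc J, hc_KD x u hx1, if_neg (by omega)]
    simp
  · refine ⟨fun J => homogeneousComponent e (θ' J), ?_, fun h => by omega, fun J => ?_⟩
    · intro e' he'
      obtain rfl : e' = e := by omega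
      exact comp_hom hθ1 e'
    · rw [hc J, hc_KD x u hx1, if_pos (by omega), Nat.add_sub_cancel, sub_self]
      exact Ideal.zero_mem _

open KosBAux MvPolynomial in
/-- Step.  Let `a` be of size `j` and degree `e`, `∂ a ∈ I + (f)`, `e + j < j d` (so `j ≥ 1`).
If `e + 1 < d` the entries of `∂ a`, forms of degree `e + 1`, are in `I` and `KEx d x u I`
applies.  Otherwise `∂ a = f η` modulo `I` with `η` of size `j - 1` and degree `e + 1 - d`
(take homogeneous components); `f ∂ η ∈ I`, so `∂ η ∈ I`, so `η = ∂ ζ` modulo `I`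
(`(e + 1 - d) + (j - 1) < (j - 1) d`), `∂ (a - f ζ) ∈ I`, so `a - f ζ = ∂ θ` modulo `I`. -/
theorem kex_step (d : ℕ) (x : ℕ → MvPolynomial (Fin n) F) (u : ℕ)
    (hx1 : ∀ v < u, (x v).IsHomogeneous 1)
    (I : Ideal (MvPolynomial (Fin n) F))
    (hI : ∀ p ∈ I, ∀ e, MvPolynomial.homogeneousComponent e p ∈ I)
    (f : MvPolynomial (Fin n) F) (hf : f.IsHomogeneous d)
    (hreg : ∀ b, f * b ∈ I → b ∈ I) (h : KEx d x u I) : KEx d x u (I ⊔ Ideal.span {f}) := by
  classical
  intro j e a ha h0 hlt
  obtain ⟨j, rfl⟩ : ∃ j', j = j' + 1 := by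
    rcases j with _ | j
    · rw [zero_mul] at hlt
      omega
    · exact ⟨j, rfl⟩
  have hda := hom_KD x u hx1 ha
  have hle : I ≤ I ⊔ Ideal.span {f} := le_sup_left
  have hfm : f ∈ I ⊔ Ideal.span {f} := Ideal.mem_sup_right (Ideal.mem_span_singleton_self f)
  -- the entries of the differential
  have key : ∀ J, ∃ c, (KD x u *ᵥ a) J - (if d ≤ e + 1 then f * homogeneousComponent (e + 1 - d) c
      else 0) ∈ I := by
    intro J
    obtain ⟨i, hi, g, hg, hig⟩ := Submodule.mem_sup.1 (h0 J)
    obtain ⟨c, rfl⟩ := Ideal.mem_span_singleton.1 hg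
    refine ⟨c, ?_⟩
    rw [← hc_mul hf c (e + 1)]
    have h1 : (KD x u *ᵥ a) J = homogeneousComponent (e + 1) ((KD x u *ᵥ a) J) :=
      (homogeneousComponent_eq_self (hom_all hda J)).symm
    rw [h1, ← hig, ← map_sub, add_sub_cancel_right]
    exact hI _ hi _
  choose c hc using key
  by_cases hd : d ≤ e + 1
  · simp only [if_pos hd] at hc
    set e1 := e + 1 - d with he1
    -- the vector `η`
    set η : KI u → MvPolynomial (Fin n) F := fun J =>
      if ksz u J = j then homogeneousComponent e1 (c J) else 0 with hη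
    have hηh : KHom u j e1 η := by
      intro J
      constructor
      · intro hJ
        rw [hη]
        simp only [if_pos hJ]
        exact homogeneousComponent_isHomogeneous _ _
      · intro hJ
        rw [hη]
        simp only [if_neg hJ]
    have hη1 : ∀ J, (KD x u *ᵥ a - f • η) J ∈ I := by
      intro J
      by_cases hJ : ksz u J = j
      · have h1 := hc J
        rw [Pi.sub_apply, Pi.smul_apply, smul_eq_mul, hη]
        simp only [if_pos hJ]
        exact h1
      · rw [Pi.sub_apply, Pi.smul_apply, (hηh J).2 hJ, (hda J).2 hJ, smul_zero, sub_zero]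
        exact Ideal.zero_mem _
    have hη2 : ∀ J, (KD x u *ᵥ η) J ∈ I := by
      intro J
      apply hreg
      have h1 := mem_KD x u hη1 J
      rw [Matrix.mulVec_sub, KD_sq, Matrix.mulVec_smul, zero_sub, Pi.neg_apply, Pi.smul_apply,
        smul_eq_mul] at h1
      exact (Ideal.neg_mem_iff _).1 h1
    have hlt1 : e1 + j < j * d := by
      rw [add_mul, one_mul] at hlt
      omega
    obtain ⟨ζ, hζ1, hζ0, hζ⟩ := h j e1 η hηh hη2 hlt1
    -- the corrected vector
    have ha' : KHom u (j + 1) e (a - f • ζ) := by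
      intro J
      rcases Nat.eq_zero_or_pos e1 with h1 | h1
      · rw [hζ0 h1, smul_zero, sub_zero]
        exact ha J
      · obtain ⟨e2, he2⟩ : ∃ e2, e1 = e2 + 1 := ⟨e1 - 1, by omega⟩
        have h2 := hζ1 e2 he2
        constructor
        · intro hJ
          rw [Pi.sub_apply, Pi.smul_apply, smul_eq_mul]
          refine ((ha J).1 hJ).sub ?_
          have h3 := hf.mul ((h2 J).1 hJ)
          have h4 : d + e2 = e := by omega
          rwa [h4] at h3
        · intro hJ
          rw [Pi.sub_apply, Pi.smul_apply, (ha J).2 hJ, (h2 J).2 hJ, smul_zero, sub_zero]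
    have hd' : ∀ J, (KD x u *ᵥ (a - f • ζ)) J ∈ I := by
      intro J
      have h1 : (KD x u *ᵥ (a - f • ζ)) J =
          (KD x u *ᵥ a - f • η) J + f * (η J - (KD x u *ᵥ ζ) J) := by
        rw [Matrix.mulVec_sub, Matrix.mulVec_smul]
        simp only [Pi.sub_apply, Pi.smul_apply, smul_eq_mul]
        ring
      rw [h1]
      exact Ideal.add_mem _ (hη1 J) (I.mul_mem_left _ (hζ J))
    obtain ⟨θ, hθ1, hθ0, hθ⟩ := h (j + 1) e (a - f • ζ) ha' hd' hlt
    refine ⟨θ, hθ1, hθ0, fun J => ?_⟩
    have h1 : a J - (KD x u *ᵥ θ) J = ((a - f • ζ) J - (KD x u *ᵥ θ) J) + ζ J * f := by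
      simp only [Pi.sub_apply, Pi.smul_apply, smul_eq_mul]
      ring
    rw [h1]
    exact Ideal.add_mem _ (hle (hθ J)) (Ideal.mul_mem_left _ _ hfm)
  · simp only [if_neg hd, sub_zero] at hc
    obtain ⟨θ, hθ1, hθ0, hθ⟩ := h (j + 1) e a ha hc hlt
    exact ⟨θ, hθ1, hθ0, fun J => hle (hθ J)⟩

open KosBAux MvPolynomial in
/-- Induction over the list (from the end: `List.reverseRecOn`, `isWeaklyRegular_append_iff'`,
`isSMulRegular_quotient_iff_mem_of_smul_mem`). -/
theorem kex_list (d : ℕ) (x : ℕ → MvPolynomial (Fin n) F) (u : ℕ)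
    (hx1 : ∀ v < u, (x v).IsHomogeneous 1)
    (hx : ∀ v < u, ∀ b : MvPolynomial (Fin n) F, x v * b ∈ Ideal.span (x '' {i | i < v}) →
      b ∈ Ideal.span (x '' {i | i < v}))
    (rs : List (MvPolynomial (Fin n) F)) (hd : ∀ r ∈ rs, r.IsHomogeneous d)
    (hreg : RingTheory.Sequence.IsWeaklyRegular (MvPolynomial (Fin n) F) rs) :
    KEx d x u (Ideal.ofList rs) := by
  induction rs using List.reverseRecOn with
  | nil =>
    rw [Ideal.ofList_nil]
    exact kex_bot d x u hx1 hx
  | append_singleton rs r ih =>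
    have h1 := (RingTheory.Sequence.isWeaklyRegular_append_iff _ rs [r]).1 hreg
    have hd1 : ∀ r ∈ rs, r.IsHomogeneous d := fun s hs => hd s (List.mem_append_left _ hs)
    have h2 := (RingTheory.Sequence.isWeaklyRegular_singleton_iff _ r).1 h1.2
    rw [Ideal.ofList_append, Ideal.ofList_singleton]
    refine kex_step d x u hx1 _ (ofList_hom d rs hd1) r
      (hd r (List.mem_append_right _ (List.mem_singleton_self r))) ?_ (ih hd1 h1.1)
    intro b hb
    have h3 := (isSMulRegular_quotient_iff_mem_of_smul_mem _ r).1 h2 b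
    rw [smul_eq_mul, smul_eq_mul, Ideal.mul_top] at h3
    exact h3 hb

end Pool.Agent.Lib.Pf179e6
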