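import Mathlib

/-! Koszul matrices, defined by recursion: `KI u` is the set of subsets of `{0, .., u-1}`, the
differential of the cone is `(a, b) ↦ (∂ a + x b, - ∂ b)`. -/

namespace Pool.Agent.Lib.Pf179e6

open Matrix

/-- index set of the Koszul complex on `u` elements -/
def KI : ℕ → Type
  | 0 => Unit
  | u + 1 => KI u ⊕ KI u

instance instFintypeKI : ∀ u, Fintype (KI u)
  | 0 => inferInstanceAs (Fintype Unit)
  | u + 1 =>
    letI := instFintypeKI u
    inferInstanceAs (Fintype (KI u ⊕ KI u))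

instance instDecEqKI : ∀ u, DecidableEq (KI u)
  | 0 => inferInstanceAs (DecidableEq Unit)
  | u + 1 =>
    letI := instDecEqKI u
    inferInstanceAs (DecidableEq (KI u ⊕ KI u))

/-- size of an index -/
def ksz : ∀ u, KI u → ℕ
  | 0, _ => 0
  | u + 1, J => Sum.elim (ksz u) (fun J => ksz u J + 1) (show KI u ⊕ KI u from J)

/-- the Koszul differential of `x 0, .., x (u-1)` -/
def KD {R : Type*} [CommRing R] (x : ℕ → R) : ∀ u, Matrix (KI u) (KI u) R
  | 0 => 0
  | u + 1 => (Matrix.fromBlocks (KD x u) (Matrix.scalar (KI u) (x u)) 0 (-(KD x u)) :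
      Matrix (KI u ⊕ KI u) (KI u ⊕ KI u) R)

/-- `a` is supported on the indices of size `j` -/
def KSupp {R : Type*} [CommRing R] (u j : ℕ) (a : KI u → R) : Prop :=
  ∀ J, ksz u J ≠ j → a J = 0

variable {F : Type*} [Field F] {n : ℕ}

/-- `a` is supported on the indices of size `j`, and its entries are forms of degree `e` -/
def KHom (u j e : ℕ) (a : KI u → MvPolynomial (Fin n) F) : Prop :=
  ∀ J, (ksz u J = j → (a J).IsHomogeneous e) ∧ (ksz u J ≠ j → a J = 0)

/-- modulo the ideal `I`, the Koszul complex of `x` is exact in the bidegrees with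
`e + j < j * d` -/
def KEx (d : ℕ) (x : ℕ → MvPolynomial (Fin n) F) (u : ℕ) (I : Ideal (MvPolynomial (Fin n) F)) :
    Prop :=
  ∀ (j e : ℕ) (a : KI u → MvPolynomial (Fin n) F), KHom u j e a →
    (∀ J, (KD x u *ᵥ a) J ∈ I) → e + j < j * d →
    ∃ θ : KI u → MvPolynomial (Fin n) F, (∀ e', e = e' + 1 → KHom u (j + 1) e' θ) ∧
      (e = 0 → θ = 0) ∧ ∀ J, a J - (KD x u *ᵥ θ) J ∈ I

end Pool.Agent.Lib.Pf179e6
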