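import Pool.Agent.Lib.Pf179e6.Defs

/-! Elementary facts on linear forms. -/

namespace Pool.Agent.Lib.Pf179e6

open MvPolynomial

variable {F : Type*} [Field F] {n : ℕ}

theorem lin_hom (v : Fin n → F) : (lin v).IsHomogeneous 1 := by
  unfold lin
  refine IsHomogeneous.sum _ _ _ fun i _ => ?_
  have h := (isHomogeneous_C (Fin n) (v i)).mul (isHomogeneous_X F i)
  rwa [zero_add] at h

theorem coeff_lin_aux (v : Fin n → F) (i : Fin n) : coeff (Finsupp.single i 1) (lin v) = v i := by
  classical
  unfold lin
  rw [coeff_sum]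
  rw [Finset.sum_eq_single i]
  · rw [coeff_C_mul, coeff_X, if_pos rfl, mul_one]
  · intro j _ hj
    rw [coeff_C_mul, coeff_X, if_neg, mul_zero]
    intro h
    have := Finsupp.single_left_injective (one_ne_zero) h
    exact hj this
  · intro h
    exact absurd (Finset.mem_univ i) h

/-- linear forms as a linear map -/
noncomputable def linL (F : Type*) [Field F] (n : ℕ) :
    (Fin n → F) →ₗ[F] MvPolynomial (Fin n) F where
  toFun := lin
  map_add' := by
    intro v w
    unfold lin
    rw [← Finset.sum_add_distrib]
    refine Finset.sum_congr rfl fun i _ => ?_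
    rw [Pi.add_apply, C_add, add_mul]
  map_smul' := by
    intro c v
    unfold lin
    rw [RingHom.id_apply, Finset.smul_sum]
    refine Finset.sum_congr rfl fun i _ => ?_
    rw [Pi.smul_apply, smul_eq_mul, C_mul, mul_assoc, smul_eq_C_mul]

theorem linL_apply (v : Fin n → F) : linL F n v = lin v := rfl

theorem linL_injective : Function.Injective (linL F n) := by
  intro v w h
  funext i
  rw [linL_apply, linL_apply] at h
  rw [← coeff_lin_aux v i, h, coeff_lin_aux]

theorem exists_lin {p : MvPolynomial (Fin n) F} (hp : p.IsHomogeneous 1) : ∃ v, p = lin v := by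
  refine ⟨fun i => coeff (Finsupp.single i 1) p, ?_⟩
  ext d
  by_cases hd : d.degree = 1
  · obtain ⟨i, rfl⟩ : ∃ i, d = Finsupp.single i 1 := by
      rw [← Finsupp.sum_eq_one_iff]
      exact hd
    rw [coeff_lin_aux]
  · rw [hp.coeff_eq_zero hd, (lin_hom _).coeff_eq_zero hd]

theorem map_lin {K : Type*} [Field K] (g : K →+* F) (v : Fin n → K) :
    map g (lin v) = lin (fun i => g (v i)) := by
  unfold lin
  rw [map_sum]
  refine Finset.sum_congr rfl fun i _ => ?_
  rw [map_mul, map_C, map_X]

end Pool.Agent.Lib.Pf179e6
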