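import Pool.Agent.Lib.Pf179e6.Lin

/-! Consequences of the monomial basis condition in the degrees `≥ n (d-1) - 1`. -/

namespace Pool.Agent.Lib.Pf179e6

open MvPolynomial

variable {K : Type*} [Field K] {n : ℕ}

/-- the monomial basis condition, as in the frozen statement -/
def Box (d : ℕ) (I : Ideal (MvPolynomial (Fin n) K)) : Prop :=
  LinearIndependent K (fun a : Fin n → Fin d =>
      Ideal.Quotient.mk I (∏ j, X j ^ (a j : ℕ))) ∧
    Submodule.span K (Set.range (fun a : Fin n → Fin d =>
      Ideal.Quotient.mk I (∏ j, X j ^ (a j : ℕ)))) = ⊤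

/-- `I` contains the homogeneous components of its members -/
def Hml (I : Ideal (MvPolynomial (Fin n) K)) : Prop :=
  ∀ p ∈ I, ∀ e, homogeneousComponent e p ∈ I

theorem box_mono_hom {d : ℕ} (a : Fin n → Fin d) :
    (∏ j, X j ^ (a j : ℕ) : MvPolynomial (Fin n) K).IsHomogeneous (∑ j, (a j : ℕ)) := by
  refine IsHomogeneous.prod _ _ _ fun j _ => ?_
  simpa using (isHomogeneous_X K j).pow (a j : ℕ)

/-- Every form of degree `t` is, modulo `I`, a combination of the box monomials of degree `t`
(write the class as a combination of all box monomials, take the component of degree `t`). -/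
theorem box_rep {d : ℕ} {I : Ideal (MvPolynomial (Fin n) K)} (hI : Hml I) (hB : Box d I) {t : ℕ}
    {q : MvPolynomial (Fin n) K} (hq : q.IsHomogeneous t) :
    ∃ c : (Fin n → Fin d) → K, (∀ a, c a ≠ 0 → ∑ j, (a j : ℕ) = t) ∧
      q - ∑ a, C (c a) * ∏ j, X j ^ (a j : ℕ) ∈ I := by
  classical
  have h1 : Ideal.Quotient.mk I q ∈ Submodule.span K (Set.range (fun a : Fin n → Fin d =>
      Ideal.Quotient.mk I (∏ j, X j ^ (a j : ℕ)))) := by
    rw [hB.2]
    trivial
  obtain ⟨c, hc⟩ := (Submodule.mem_span_range_iff_exists_fun K).1 h1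
  refine ⟨fun a => if ∑ j, (a j : ℕ) = t then c a else 0, fun a ha => ?_, ?_⟩
  · by_contra hne
    exact ha (if_neg hne)
  · have h2 : q - ∑ a, C (c a) * ∏ j, X j ^ (a j : ℕ) ∈ I := by
      rw [← Ideal.Quotient.eq_zero_iff_mem, map_sub, sub_eq_zero, ← hc, map_sum]
      refine Finset.sum_congr rfl fun a _ => ?_
      rw [← smul_eq_C_mul]
      rfl
    have h3 := hI _ h2 t
    have h4 : homogeneousComponent t (q - ∑ a : Fin n → Fin d, C (c a) * ∏ j, X j ^ (a j : ℕ)) =
        q - ∑ a : Fin n → Fin d, C (if ∑ j, (a j : ℕ) = t then c a else 0) * ∏ j, X j ^ (a j : ℕ) := by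
      rw [map_sub, map_sum]
      congr 1
      · rw [homogeneousComponent_of_mem hq, if_pos rfl]
      · refine Finset.sum_congr rfl fun a _ => ?_
        rw [homogeneousComponent_C_mul, homogeneousComponent_of_mem (box_mono_hom a)]
        by_cases h : ∑ j, (a j : ℕ) = t
        · rw [if_pos h, if_pos h.symm]
        · rw [if_neg h, if_neg (fun h' => h h'.symm), map_zero, mul_zero, zero_mul]
    rwa [h4] at h3

theorem top_zero {d : ℕ} {I : Ideal (MvPolynomial (Fin n) K)} (hI : Hml I) (hB : Box d I) {t : ℕ}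
    (ht : n * (d - 1) < t) {q : MvPolynomial (Fin n) K} (hq : q.IsHomogeneous t) : q ∈ I := by
  obtain ⟨c, hc, hm⟩ := box_rep hI hB hq
  have h0 : ∀ a, c a = 0 := by
    intro a
    by_contra hne
    have h1 := hc a hne
    have h2 : ∑ j, (a j : ℕ) ≤ ∑ _j : Fin n, (d - 1) :=
      Finset.sum_le_sum fun j _ => by
        have := (a j).2
        omega
    rw [Finset.sum_const, Finset.card_univ, Fintype.card_fin, smul_eq_mul] at h2
    omega
  have h3 : q - ∑ a, C (c a) * ∏ j, X j ^ (a j : ℕ) = q := by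
    rw [Finset.sum_eq_zero, sub_zero]
    intro a _
    rw [h0 a, map_zero, zero_mul]
  rwa [h3] at hm

theorem top_one {d : ℕ} {I : Ideal (MvPolynomial (Fin n) K)} (hI : Hml I) (hB : Box d I)
    {q : MvPolynomial (Fin n) K} (hq : q.IsHomogeneous (n * (d - 1))) :
    ∃ c : K, q - C c * ∏ j, X j ^ (d - 1) ∈ I := by
  obtain ⟨c, hc, hm⟩ := box_rep hI hB hq
  have hall : ∀ a, c a ≠ 0 → ∀ j, (a j : ℕ) = d - 1 := by
    intro a hne
    have h1 := hc a hne
    have h2 : ∑ j, (a j : ℕ) = ∑ _j : Fin n, (d - 1) := by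
      rw [Finset.sum_const, Finset.card_univ, Fintype.card_fin, smul_eq_mul]
      exact h1
    have h3 := (Finset.sum_eq_sum_iff_of_le (s := Finset.univ) (f := fun j => (a j : ℕ))
      (g := fun _ => d - 1) (fun j _ => by
        have := (a j).2
        omega)).1 h2
    exact fun j => h3 j (Finset.mem_univ j)
  by_cases h : ∃ a, c a ≠ 0
  · obtain ⟨a0, ha0⟩ := h
    refine ⟨c a0, ?_⟩
    have h3 : ∑ a, C (c a) * ∏ j, X j ^ (a j : ℕ) =
        (C (c a0) * ∏ j, X j ^ (d - 1) : MvPolynomial (Fin n) K) := by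
      rw [Finset.sum_eq_single a0]
      · congr 1
        refine Finset.prod_congr rfl fun j _ => ?_
        rw [hall a0 ha0 j]
      · intro a _ hne
        have h4 : c a = 0 := by
          by_contra h5
          apply hne
          funext j
          apply Fin.ext
          rw [hall a h5 j, hall a0 ha0 j]
        rw [h4, map_zero, zero_mul]
      · intro h5
        exact absurd (Finset.mem_univ _) h5
    rwa [h3] at hm
  · push Not at h
    refine ⟨0, ?_⟩
    have h3 : q - ∑ a, C (c a) * ∏ j, X j ^ (a j : ℕ) = q - C 0 * ∏ j, X j ^ (d - 1) := by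
      rw [Finset.sum_eq_zero, map_zero, zero_mul]
      intro a _
      rw [h a, map_zero, zero_mul]
    rwa [h3] at hm

theorem top_ne {d : ℕ} (hd : 1 ≤ d) {I : Ideal (MvPolynomial (Fin n) K)} (hB : Box d I) :
    (∏ j, X j ^ (d - 1) : MvPolynomial (Fin n) K) ∉ I := by
  intro hmem
  have h1 := hB.1.ne_zero (fun _ => ⟨d - 1, by omega⟩)
  apply h1
  exact Ideal.Quotient.eq_zero_iff_mem.2 hmem

attribute [local instance] MvPolynomial.gradedAlgebra in
/-- An ideal generated by forms. -/
theorem hml_ofList (rs : List (MvPolynomial (Fin n) K)) (e : ℕ)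
    (hd : ∀ r ∈ rs, r.IsHomogeneous e) : Hml (Ideal.ofList rs) := by
  have h : (Ideal.ofList rs).IsHomogeneous (homogeneousSubmodule (Fin n) K) := by
    unfold Ideal.ofList
    refine Ideal.homogeneous_span _ _ fun r hr => ⟨e, ?_⟩
    exact hd r hr
  intro p hp e'
  exact (mem_iff_homogeneousComponent_mem h p).1 hp e'

end Pool.Agent.Lib.Pf179e6
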