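import Pool.Agent.Lib.Pf179e6.Top

/-! Consequences of the monomial basis condition, second part. -/

namespace Pool.Agent.Lib.Pf179e6

open MvPolynomial

variable {K : Type*} [Field K] {n : ℕ}

namespace TopBAux

theorem prod_monomial {R : Type*} [CommSemiring R] (k : Fin n → ℕ) (c : R) :
    C c * ∏ i, (X i : MvPolynomial (Fin n) R) ^ k i =
      monomial (Finsupp.equivFunOnFinite.symm k) c := by
  rw [monomial_eq, Finsupp.prod_fintype]
  · rfl
  · intro i
    exact pow_zero _

theorem prod_const (d : ℕ) : ∏ j : Fin n, (X j : MvPolynomial (Fin n) K) ^ (d - 1) =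
    ∏ j, X j ^ ((fun _ : Fin n => d - 1) j) := rfl

theorem one_drop {d : ℕ} (hd : 2 ≤ d) (hs : 2 ≤ n * (d - 1)) {a : Fin n → Fin d}
    (ha : ∑ j, (a j : ℕ) = n * (d - 1) - 1) :
    ∃ i, ∀ j, (a j : ℕ) = if j = i then d - 2 else d - 1 := by
  classical
  have h1 : ∑ j, (d - 1 - (a j : ℕ)) = 1 := by
    have h2 : ∑ j, (d - 1 - (a j : ℕ)) + ∑ j, (a j : ℕ) = n * (d - 1) := by
      rw [← Finset.sum_add_distrib]
      calc ∑ j, (d - 1 - (a j : ℕ) + (a j : ℕ)) = ∑ _j : Fin n, (d - 1) :=
            Finset.sum_congr rfl fun j _ => by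
              have := (a j).2
              omega
        _ = n * (d - 1) := by simp
    omega
  have h3 : ∃ i, d - 1 - (a i : ℕ) ≠ 0 := by
    by_contra hc
    push Not at hc
    rw [Finset.sum_eq_zero fun j _ => hc j] at h1
    exact zero_ne_one h1
  obtain ⟨i, hi⟩ := h3
  refine ⟨i, fun j => ?_⟩
  rw [← Finset.add_sum_erase _ _ (Finset.mem_univ i)] at h1
  have h4 : ∑ j ∈ Finset.univ.erase i, (d - 1 - (a j : ℕ)) = 0 := by omega
  rw [Finset.sum_eq_zero_iff] at h4
  by_cases hj : j = i
  · rw [if_pos hj, hj]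
    omega
  · rw [if_neg hj]
    have := h4 j (Finset.mem_erase.mpr ⟨hj, Finset.mem_univ _⟩)
    have := (a j).2
    omega

/-- the class of the box monomial with one exponent `d - 2` -/
noncomputable def ww (d : ℕ) (I : Ideal (MvPolynomial (Fin n) K)) (i : Fin n) :
    MvPolynomial (Fin n) K ⧸ I :=
  Ideal.Quotient.mk I (∏ j, X j ^ (if j = i then d - 2 else d - 1))

theorem mem_span_ww {d : ℕ} (hd : 2 ≤ d) {I : Ideal (MvPolynomial (Fin n) K)} (hI : Hml I)
    (hB : Box d I) (hs : 2 ≤ n * (d - 1)) {q : MvPolynomial (Fin n) K}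
    (hq : q.IsHomogeneous (n * (d - 1) - 1)) :
    Ideal.Quotient.mk I q ∈ Submodule.span K (Set.range (ww d I)) := by
  obtain ⟨c, hc, hmem⟩ := box_rep hI hB hq
  have h1 : Ideal.Quotient.mk I q =
      ∑ a : Fin n → Fin d, c a • Ideal.Quotient.mk I (∏ j, X j ^ (a j : ℕ)) := by
    rw [Ideal.Quotient.eq.mpr hmem, map_sum]
    refine Finset.sum_congr rfl fun a _ => ?_
    rw [← smul_eq_C_mul]
    exact map_smul (Ideal.Quotient.mkₐ K I) (c a) _
  rw [h1]
  refine Submodule.sum_mem _ fun a _ => ?_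
  by_cases h0 : c a = 0
  · rw [h0, zero_smul]
    exact Submodule.zero_mem _
  · obtain ⟨i, hi⟩ := one_drop hd hs (hc a h0)
    refine Submodule.smul_mem _ _ (Submodule.subset_span ⟨i, ?_⟩)
    unfold ww
    congr 1
    exact Finset.prod_congr rfl fun j _ => by rw [hi j]

end TopBAux

/-- Choose a `K`-linear `λ` that vanishes on `I` and not on `∏ x_j^(d-1)`;
`Q = ∑_α multinomial(α) λ (x^α) t^α` over `|α| = n (d-1)`, `Q (a) = λ ((lin a)^(n (d-1)))`. -/
theorem exists_Q [CharZero K] {d : ℕ} (hd : 1 ≤ d) {I : Ideal (MvPolynomial (Fin n) K)}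
    (hB : Box d I) : ∃ Q : MvPolynomial (Fin n) K, Q ≠ 0 ∧
      ∀ a, eval a Q ≠ 0 → lin a ^ (n * (d - 1)) ∉ I := by
  classical
  obtain ⟨lam, hlam, hI⟩ := Submodule.exists_le_ker_of_notMem
    (p := I.restrictScalars K) (v := ∏ j, X j ^ (d - 1)) (top_ne hd hB)
  set N := n * (d - 1) with hN
  set A := Finset.piAntidiag (Finset.univ : Finset (Fin n)) N with hA
  refine ⟨∑ k ∈ A, C ((Nat.multinomial Finset.univ k : K) * lam (∏ i, X i ^ k i)) *
    ∏ i, X i ^ k i, ?_, ?_⟩
  · set k₀ : Fin n → ℕ := fun _ => d - 1 with hk₀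
    have hmem : k₀ ∈ A := by
      rw [hA, Finset.mem_piAntidiag]
      refine ⟨?_, fun i _ => Finset.mem_univ i⟩
      simp [hk₀, hN]
    intro h0
    have h1 := congrArg (coeff (Finsupp.equivFunOnFinite.symm k₀)) h0
    rw [coeff_sum, coeff_zero, Finset.sum_eq_single k₀] at h1
    · rw [TopBAux.prod_monomial, coeff_monomial, if_pos rfl] at h1
      rcases mul_eq_zero.mp h1 with h2 | h2
      · have h3 : Nat.multinomial Finset.univ k₀ = 0 := by exact_mod_cast h2
        exact absurd h3 (Nat.multinomial_pos _ _).ne'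
      · exact hlam h2
    · intro k _ hk
      rw [TopBAux.prod_monomial, coeff_monomial, if_neg]
      intro h
      exact hk (Finsupp.equivFunOnFinite.symm.injective h)
    · intro h
      exact absurd hmem h
  · intro a ha hmemI
    apply ha
    have h1 : lam (lin a ^ N) = 0 := hI hmemI
    rw [← h1]
    unfold lin
    rw [Finset.sum_pow_eq_sum_piAntidiag, map_sum, map_sum]
    refine Finset.sum_congr rfl fun k _ => ?_
    have h3 : ∀ c : K, eval a (C c * ∏ i, X i ^ k i) = c * ∏ i, a i ^ k i := by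
      intro c
      simp
    rw [h3]
    have h2 : (Nat.multinomial Finset.univ k : MvPolynomial (Fin n) K) *
        ∏ i, (C (a i) * X i) ^ k i =
        ((Nat.multinomial Finset.univ k : K) * ∏ i, a i ^ k i) • ∏ i, X i ^ k i := by
      rw [smul_eq_C_mul, map_mul, map_natCast, map_prod, mul_assoc, ← Finset.prod_mul_distrib]
      congr 1
      exact Finset.prod_congr rfl fun i _ => by rw [mul_pow, map_pow]
    rw [h2, map_smul, smul_eq_mul]
    ring

/-- Dimension count: the forms of degree `n (d-1) - 1` modulo `I` are spanned by the `n` classes of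
the box monomials of this degree (`2 ≤ d`), and `lin v ↦ (lin a)^(n (d-1) - 2) lin v` is
injective on an `n`-dimensional space. -/
theorem sub_top_surj {d : ℕ} (hd : 2 ≤ d) {I : Ideal (MvPolynomial (Fin n) K)} (hI : Hml I)
    (hB : Box d I) (hs : 2 ≤ n * (d - 1)) (a : Fin n → K)
    (ha : ∀ v : Fin n → K, lin a ^ (n * (d - 1) - 2) * lin v ∈ I → v = 0)
    {q : MvPolynomial (Fin n) K} (hq : q.IsHomogeneous (n * (d - 1) - 1)) :
    ∃ v : Fin n → K, q - lin a ^ (n * (d - 1) - 2) * lin v ∈ I := by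
  classical
  set M : Submodule K (MvPolynomial (Fin n) K ⧸ I) :=
    Submodule.span K (Set.range (TopBAux.ww d I)) with hM
  set φ : (Fin n → K) →ₗ[K] (MvPolynomial (Fin n) K ⧸ I) :=
    ((Ideal.Quotient.mkₐ K I).toLinearMap.comp
      (LinearMap.mulLeft K (lin a ^ (n * (d - 1) - 2)))).comp (linL K n) with hφ
  have hφa : ∀ v, φ v = Ideal.Quotient.mk I (lin a ^ (n * (d - 1) - 2) * lin v) := fun v => rfl
  have hinj : Function.Injective φ := by
    rw [injective_iff_map_eq_zero]
    intro v hv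
    rw [hφa, Ideal.Quotient.eq_zero_iff_mem] at hv
    exact ha v hv
  have hle : LinearMap.range φ ≤ M := by
    rintro _ ⟨v, rfl⟩
    rw [hφa]
    refine TopBAux.mem_span_ww hd hI hB hs ?_
    have h1 := ((lin_hom a).pow (n * (d - 1) - 2)).mul (lin_hom v)
    have e : 1 * (n * (d - 1) - 2) + 1 = n * (d - 1) - 1 := by omega
    rwa [e] at h1
  have hfd : FiniteDimensional K M := FiniteDimensional.span_of_finite K (Set.finite_range _)
  have hfin : Module.finrank K M ≤ n := by
    have := finrank_range_le_card (R := K) (TopBAux.ww d I)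
    rw [Fintype.card_fin] at this
    exact this
  have hrange : Module.finrank K (LinearMap.range φ) = n := by
    rw [LinearMap.finrank_range_of_inj hinj, Module.finrank_fin_fun]
  have heq : LinearMap.range φ = M :=
    Submodule.eq_of_le_of_finrank_le hle (by rw [hrange]; exact hfin)
  have hq' : Ideal.Quotient.mk I q ∈ LinearMap.range φ := by
    rw [heq]
    exact TopBAux.mem_span_ww hd hI hB hs hq
  obtain ⟨v, hv⟩ := hq'
  refine ⟨v, ?_⟩
  rw [hφa] at hv
  exact Ideal.Quotient.eq.mp hv.symm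

end Pool.Agent.Lib.Pf179e6
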